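import Pool.Agent.Helper619.Split4.Defs

/-!
# Certificate for the key identity of the splitting-automorphism problem

`X, Y, Z` are elements with fourth power `1`; every word `v` of odd length satisfies
`v + v⁻¹ = 1 + v ^ 2`.  Then `24 (Z + Z⁻¹ - 2) (1 + X²) (Y - 1) a = 0` whenever `X a = a`.
The proof is a list of 729 relations found by computer and checked by the kernel.
-/

set_option autoImplicit false

namespace Pool.Agent.Helper619.Split4

inductive Lt
  | x | y | z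

/-- cons with normalisation -/
def cs : Lt → List Lt → List Lt
  | .x, [] => []
  | .x, .x :: .x :: .x :: t => t
  | .y, .y :: .y :: .y :: t => t
  | .z, .z :: .z :: .z :: t => t
  | a, w => a :: w

/-- concatenation with normalisation -/
def ap : List Lt → List Lt → List Lt
  | [], w => w
  | l :: u, w => cs l (ap u w)

/-- inverse word -/
def iv (u : List Lt) : List Lt := u.reverse.flatMap (fun l => [l, l, l])

/-- ternary tries with integer coefficients -/
inductive Tr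
  | nil
  | node (c : ℤ) (tx ty tz : Tr)

def ins (c : ℤ) : List Lt → Tr → Tr
  | [], .nil => .node c .nil .nil .nil
  | [], .node d tx ty tz => .node (d + c) tx ty tz
  | .x :: w, .nil => .node 0 (ins c w .nil) .nil .nil
  | .y :: w, .nil => .node 0 .nil (ins c w .nil) .nil
  | .z :: w, .nil => .node 0 .nil .nil (ins c w .nil)
  | .x :: w, .node d tx ty tz => .node d (ins c w tx) ty tz
  | .y :: w, .node d tx ty tz => .node d tx (ins c w ty) tz
  | .z :: w, .node d tx ty tz => .node d tx ty (ins c w tz)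

def allZ : Tr → Bool
  | .nil => true
  | .node c tx ty tz => (c == 0) && allZ tx && allZ ty && allZ tz

def dec : ℕ → ℕ → List Lt
  | 0, _ => []
  | f + 1, n => match n % 4 with
    | 0 => []
    | 1 => .x :: dec f (n / 4)
    | 2 => .y :: dec f (n / 4)
    | _ => .z :: dec f (n / 4)

def oddL : List Lt → Bool
  | [] => false
  | [_] => true
  | _ :: _ :: t => oddL t

def stp (T : Tr) (e : ℤ × ℕ × ℕ × ℕ) : Tr :=
  let u := dec 20 e.2.1
  let v := dec 20 e.2.2.1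
  let w := ap (dec 20 e.2.2.2) []
  match oddL v with
  | false => T
  | true => ins e.1 (ap u (ap v w)) (ins e.1 (ap u (ap (iv v) w))
      (ins (-e.1) (ap u w) (ins (-e.1) (ap u (ap v (ap v w))) T)))

def cert0 : List (ℤ × ℕ × ℕ × ℕ) :=
  [((-9),0,1,10), ((-19),0,1,61), ((-4),0,1,58), ((-8),0,1,175), ((-8),0,1,57), (10,0,1,1001),
    ((-8),0,1,45), (4,0,1,189), ((-8),0,1,190), (4,0,1,702), (8,0,1,218), ((-4),0,1,858),
    ((-7),0,1,15706), (4,0,1,1003), (8,0,1,159), (7,0,1,3945), ((-4),0,1,3049),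
    ((-5),0,1,11241), (12,0,1,941), (6,0,1,2685), (4,0,1,2429), (6,0,1,42365), ((-8),0,1,922),
    ((-8),0,1,3034), (4,0,1,10746), (4,0,1,169466), ((-4),0,1,3743), (7,0,1,256351),
    (7,0,1,44905), ((-4),0,1,48489), ((-5),0,1,179561), (8,0,1,2941), ((-4),0,1,238973),
    ((-8),0,1,48745), (4,0,1,179817), ((-8),0,1,60285), (4,0,1,256893), ((-4),2,1,15),
    (12,2,1,41), (8,10,1,3), ((-7),10,1,15), ((-18),10,1,41), ((-8),10,1,47), (8,10,1,57),
    ((-4),10,1,233), ((-7),10,1,1001), (5,10,1,701), ((-4),10,1,762), ((-4),10,1,10591),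
    ((-8),10,1,761), (6,10,1,11241), ((-4),10,1,44969), (4,10,1,2685), ((-6),10,1,10621),
    (8,3,1,41), ((-4),3,1,13), ((-4),3,1,698), (4,3,1,2810), (4,3,1,3775), ((-10),15,1,10)]

def cert1 : List (ℤ × ℕ × ℕ × ℕ) :=
  [(6,15,1,61), ((-4),15,1,58), (1,15,1,250), (4,15,1,189), ((-6),15,1,701), ((-8),15,1,765),
    ((-4),15,1,3930), (4,15,1,235), (3,15,1,4015), (4,15,1,3773), ((-4),15,1,64253),
    ((-4),63,1,173), (4,63,1,1003), (4,41,1,13), (4,41,1,47), ((-5),41,1,701), ((-4),61,1,2),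
    ((-4),37,1,15), ((-12),165,1,41), (5,165,1,61), (7,165,1,250), (8,165,1,234), (4,165,1,233),
    (8,165,1,189), (3,165,1,701), (8,165,1,190), ((-4),165,1,702), (4,165,1,3049),
    ((-6),165,1,11241), ((-4),165,1,10621), (4,53,1,41), ((-8),245,1,10), ((-12),245,1,61),
    (3,245,1,250), ((-4),245,1,47), ((-4),245,1,233), (2,245,1,701), ((-8),245,1,765),
    ((-6),245,1,3930), ((-8),245,1,3775), (4,245,1,16063), ((-4),245,1,3773), (3,245,1,16061),
    (4,661,1,13), (4,661,1,47), (5,661,1,175), ((-4),981,1,2), ((-8),14,1,61), ((-4),62,1,15),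
    ((-4),58,1,10), ((-4),58,1,15), ((-4),58,1,13), (4,58,1,233), ((-4),58,1,943),
    ((-4),58,1,45033), ((-4),250,1,61), (4,250,1,175), ((-14),250,1,4015), ((-8),250,1,11241),
    (4,1018,1,16301)]

def cert2 : List (ℤ × ℕ × ℕ × ℕ) :=
  [((-8),11,1,41), ((-4),43,1,10), ((-8),47,1,41), (4,175,1,41), (6,175,1,61), (8,229,1,15),
    ((-4),997,1,15), ((-4),933,1,15), (4,4005,1,10), (2,4005,1,15), ((-8),181,1,41),
    ((-4),693,1,10), (4,757,1,41), ((-4),2805,1,15), ((-6),2805,1,41), (4,3930,1,41),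
    (4,3930,1,175), ((-2),4015,1,61), (48,0,2,2), ((-16),0,2,3), ((-22),0,2,15), (12,0,2,41),
    (14,0,2,37), ((-2),0,2,165), ((-8),0,2,53), (25,0,2,47), (11,0,2,4005), ((-8),0,2,757),
    ((-7),0,2,982), (12,0,2,702), ((-17),0,2,2750), ((-4),0,2,2655), (4,0,2,10847),
    (8,0,2,3935), (2,0,2,179877), ((-6),0,2,9717), (4,0,2,42485), ((-6),0,2,173557),
    ((-4),0,2,918), (4,0,2,3990), (4,0,2,14998), (4,0,2,11222), ((-4),0,2,2430),
    (2,0,2,2714357), (4,0,2,12182), ((-6),0,2,44950), ((-4),0,2,195222), (8,0,2,62910),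
    ((-8),0,2,251582), (4,0,2,679830), (4,0,2,622230), ((-4),0,2,2719382), ((-10),0,2,154582),
    (2,0,2,617430), ((-20),5,2,0), ((-12),5,2,3), ((-12),5,2,53), (5,5,2,245), ((-6),5,2,175),
    (5,5,2,687)]

def cert3 : List (ℤ × ℕ × ℕ × ℕ) :=
  [((-4),5,2,933), (4,5,2,757), ((-17),5,2,190), ((-8),5,2,3045), (4,5,2,11237), (4,5,2,12197),
    ((-6),5,2,44965), ((-8),5,2,173557), ((-8),5,2,918), (7,5,2,16022), (2,5,2,11222),
    (4,5,2,43390), (8,5,2,38870), ((-4),5,2,169942), (20,3,2,0), (8,3,2,166), (4,3,2,150),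
    (37,15,2,0), ((-17),15,2,15), ((-4),15,2,245), (8,15,2,166), (4,15,2,150), ((-4),15,2,3935),
    (20,53,2,0), ((-4),53,2,37), (8,53,2,166), ((-7),245,2,0), ((-5),245,2,15), (4,245,2,37),
    ((-4),245,2,166), ((-2),245,2,662), (4,245,2,982), (10,22,2,0), (8,22,2,3), ((-7),22,2,62),
    (4,22,2,175), (8,22,2,190), (4,22,2,10847), (8,62,2,2), (8,62,2,245), (4,26,2,702),
    ((-12),90,2,0), ((-4),90,2,15), (4,90,2,14), ((-4),90,2,190), ((-6),90,2,702),
    ((-4),90,2,2430), (4,90,2,10622), (8,346,2,3), ((-8),346,2,47), ((-25),250,2,2),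
    ((-4),250,2,245), (9,250,2,62), (11,362,2,15), (4,362,2,2430), ((-4),362,2,10622),
    (8,1002,2,245), ((-12),23,2,2), (10,95,2,0), (4,95,2,245)]

def cert4 : List (ℤ × ℕ × ℕ × ℕ) :=
  [(2,95,2,702), ((-8),997,2,0), ((-8),421,2,3), (8,1445,2,3), ((-8),5541,2,47),
    ((-4),5541,2,702), (5,4005,2,0), (3,4005,2,15), (12,373,2,0), ((-6),1525,2,0),
    (6,1525,2,245), (8,1525,2,62), (8,982,2,2), (2,982,2,150), (8,382,2,2), (2,3930,2,0),
    (2,3930,2,165), (2,3930,2,2710), ((-12),1530,2,2), (16,1530,2,15), ((-8),1530,2,47),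
    (8,1530,2,2750), ((-2),15722,2,37), ((-8),91,2,0), (4,363,2,0), ((-2),3935,2,62),
    ((-8),367,2,0), (4,1455,2,0), (4,6117,2,0), ((-4),24485,2,0), (8,251557,2,0),
    ((-8),1461,2,0), (4,5813,2,0), (6,5877,2,0), (4,23285,2,2), (4,6102,2,0), (8,62970,2,2),
    (8,62970,2,15), ((-2),256607,2,0), ((-8),97637,2,2), ((-8),390565,2,0), ((-4),97942,2,2),
    ((-2),371670,2,2), (4,1567322,2,2), (2,94042,2,0), ((-2),372570,2,0), ((-8),1025530,2,0),
    ((-58),0,3,0), (9,0,3,10), ((-4),0,3,245), (8,0,3,58), (3,0,3,250), ((-16),0,3,11),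
    ((-4),0,3,173), (4,0,3,933), (8,0,3,181), (2,0,3,693), ((-4),0,3,757), ((-6),0,3,2805),
    (4,0,3,11253)]

def cert5 : List (ℤ × ℕ × ℕ × ℕ) :=
  [((-8),0,3,858), (12,0,3,3930), ((-12),0,3,151), (5,0,3,16053), (2,0,3,15093),
    ((-6),0,3,64245), ((-4),0,3,15738), (4,0,3,16023), ((-2),0,3,65175), (4,0,3,16055),
    ((-4),0,3,65207), ((-3),0,3,1028055), (4,0,3,60247), ((-4),0,3,251883), ((-8),1,3,11),
    (23,5,3,10), (40,5,3,3), ((-12),5,3,37), (2,5,3,58), (8,5,3,250), (16,5,3,11), (8,5,3,181),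
    ((-4),5,3,757), (2,5,3,2805), ((-4),5,3,2650), ((-8),5,3,663), (4,5,3,15093),
    ((-1),5,3,64245), (4,5,3,11098), ((-1),5,3,16023), ((-14),5,3,15723), (8,5,3,15063),
    ((-4),5,3,64215), ((-20),2,3,3), (8,2,3,247), (4,2,3,215), (12,10,3,3), (4,10,3,61),
    ((-10),10,3,165), (11,10,3,43), ((-10),10,3,4005), (4,10,3,2805), ((-8),10,3,215),
    (4,10,3,235), ((-9),10,3,1003), ((-4),10,3,11173), ((-4),10,3,65205), ((-4),10,3,15093),
    (4,10,3,64245), (4,10,3,3735), ((-4),10,3,2775), ((-4),10,3,45015), (4,10,3,15723),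
    ((-20),37,3,3), ((-4),37,3,53), (8,37,3,247), ((-8),165,3,0), (2,165,3,53), (9,165,3,43),
    ((-4),165,3,247)]

def cert6 : List (ℤ × ℕ × ℕ × ℕ) :=
  [(8,165,3,663), (3,165,3,1003), ((-12),22,3,3), ((-8),90,3,0), (2,90,3,10), ((-4),90,3,2805),
    (4,90,3,663), (4,90,3,4075), (4,23,3,2), ((-6),23,3,10), (2,23,3,1003), ((-5),43,3,0),
    ((-4),43,3,53), (4,43,3,43), ((-4),31,3,250), (8,31,3,11), (2,95,3,0), ((-2),95,3,1018),
    ((-8),95,3,11), ((-4),95,3,43), ((-3),95,3,1003), ((-8),351,3,58), ((-2),175,3,0),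
    ((-2),175,3,215), (4,383,3,11), (4,383,3,235), ((-3),703,3,3), ((-4),703,3,983),
    (4,173,3,0), (8,1405,3,11), ((-12),357,3,3), (6,1445,3,3), (3,693,3,0), ((-8),501,3,235),
    (4,501,3,1003), (8,1525,3,2), (8,1525,3,235), ((-4),1525,3,1003), ((-9),11253,3,3),
    (8,94,3,3), ((-4),382,3,3), ((-4),2650,3,0), ((-4),122,3,58), ((-8),378,3,3),
    ((-4),378,3,58), (4,378,3,250), ((-4),378,3,43), ((-4),1402,3,58), ((-4),1530,3,0),
    (4,1530,3,10), (6,1530,3,250), (4,1530,3,4075), ((-8),2810,3,10), (4,167,3,10), (2,663,3,3),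
    (4,663,3,43), (4,2647,3,10), (12,363,3,0), ((-2),2655,3,43), ((-6),1455,3,0)]

def cert7 : List (ℤ × ℕ × ℕ × ℕ) :=
  [(8,5823,3,0), (8,1509,3,3), ((-4),6117,3,3), (4,6053,3,0), ((-2),24485,3,0), (4,10613,3,0),
    (10,5813,3,0), (4,5813,3,43), ((-4),169973,3,3), ((-14),93173,3,3), (4,44890,3,3),
    (4,10618,3,10), ((-4),42490,3,0), ((-4),695,3,0), (8,1515,3,3), ((-4),6123,3,3),
    (4,2783,3,0), ((-2),11103,3,3), ((-2),44895,3,0), (4,6063,3,0), ((-2),24495,3,0),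
    ((-6),179583,3,0), (4,177535,3,0), ((-4),44410,3,3), ((-4),720250,3,3), (4,718330,3,3),
    ((-4),2873338,3,3), ((-10),0,41,10), (4,0,41,58), ((-8),0,41,234), ((-4),0,41,762),
    (6,0,41,2810), (12,1,41,0), (4,1,41,3), (7,1,41,15), ((-4),1,41,47), (6,1,41,175),
    ((-12),5,41,10), ((-7),5,41,250), ((-8),5,41,234), ((-4),5,41,762), ((-4),5,41,11242),
    ((-8),171,41,10), ((-8),687,41,10), (8,1405,41,0), (4,1397,41,0), ((-8),5557,41,0),
    (4,22261,41,0), (4,0,61,47), ((-4),1,61,2), ((-2),1,61,10), ((-4),1,61,58), (1,1,61,250),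
    ((-12),5,61,15), (4,5,61,47), ((-4),5,61,943), (3,5,61,4015), ((-4),5,61,16063),
    ((-6),21,61,0), (4,2,61,15)]

def cert8 : List (ℤ × ℕ × ℕ × ℕ) :=
  [((-4),10,61,175), ((-2),165,61,15), (4,26,61,10), (4,1018,61,15), ((-2),175,61,15),
    (4,1381,61,0), ((-2),5541,61,0), (4,22437,61,0), (8,0,37,3), (4,0,37,190), ((-6),0,37,702),
    ((-4),0,37,3050), ((-4),0,37,169962), ((-8),5,37,14), (7,5,37,250), (10,5,37,175),
    (8,5,37,190), ((-4),5,37,702), (8,5,37,607), ((-22),10,37,42), (16,42,37,42),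
    ((-12),23,37,0), ((-4),171,37,42), ((-4),687,37,42), ((-12),373,37,0), ((-6),5877,37,0),
    (4,23285,37,0), (6,6102,37,0), ((-8),24410,37,0), ((-18),0,677,2), ((-12),0,677,14),
    ((-3),0,677,62), ((-4),0,677,234), (12,0,677,190), (4,0,677,3050), ((-6),0,677,11242),
    (4,0,677,10622), ((-4),0,677,43390), ((-4),5,677,3), (11,5,677,15), (4,5,677,58),
    (7,5,677,250), (2,5,677,175), (8,5,677,190), ((-4),5,677,702), ((-4),5,677,607),
    (12,15,677,2), ((-8),11,677,2), ((-8),47,677,2), ((-8),5813,677,0), (4,23221,677,0),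
    ((-6),6102,677,0), ((-2),24410,677,0), (8,0,53,2), ((-8),0,53,58), (4,0,53,250),
    ((-4),0,53,11), (2,0,53,43), ((-4),0,53,703), ((-3),0,53,16063)]

def cert9 : List (ℤ × ℕ × ℕ × ℕ) :=
  [((-4),5,53,58), (3,5,53,250), ((-4),5,53,1003), (1,5,53,4015), ((-4),10,53,703),
    ((-12),22,53,0), ((-4),254,53,63), (12,90,53,0), (4,90,53,175), ((-12),250,53,63),
    ((-12),357,53,0), (6,1445,53,0), ((-12),363,53,0), (6,1455,53,0), (8,1509,53,0),
    ((-4),6053,53,0), ((-4),6123,53,0), ((-4),6063,53,0), ((-12),0,1013,11), (4,0,1013,43),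
    (8,0,1013,47), ((-4),0,1013,191), (2,0,1013,703), ((-8),0,1013,943), (4,0,1013,3775),
    ((-4),5,1013,2), ((-4),5,1013,58), ((-4),5,1013,943), (1,5,1013,4015), ((-4),10,1013,43),
    ((-8),14,1013,3), (4,90,1013,175), ((-8),250,1013,3), (4,24549,1013,0), ((-2),98213,1013,0),
    ((-8),6123,1013,0), ((-2),98223,1013,0), (2,0,661,10), ((-4),0,661,58), ((-7),0,661,250),
    (4,0,661,762), (2,0,661,2810), (7,1,661,15), ((-8),1,661,190), (4,1,661,702),
    ((-4),21,661,3), (2,21,661,175), ((-8),21,661,190), ((-12),2,661,10), ((-4),3,661,10),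
    ((-4),15,661,10), ((-2),245,661,10), ((-4),7,661,0), ((-4),31,661,0), ((-4),117,661,0),
    (6,501,661,0), (8,2005,661,0), ((-4),0,981,47), ((-6),0,981,175), (4,0,981,943)]

def cert10 : List (ℤ × ℕ × ℕ × ℕ) :=
  [(7,0,981,4015), ((-6),1,981,0), (6,1,981,10), (4,1,981,58), ((-11),1,981,250), (8,1,981,11),
    ((-8),1,981,235), (4,1,981,1003), (8,5,981,2), ((-12),5,981,15), ((-8),5,981,11),
    ((-8),5,981,191), ((-2),21,981,10), (8,21,981,11), ((-8),21,981,235), ((-4),2,981,15),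
    ((-4),10,981,175), (8,14,981,15), (4,26,981,0), (4,346,981,10), ((-2),175,981,15),
    ((-4),101,981,0), (8,8165,981,0), (17,0,62,15), (4,0,62,3935), (3,37,62,0),
    ((-3),165,62,15), (2,10847,62,0), (8,173562,62,0), (9,0,58,3), ((-3),0,58,63),
    ((-4),0,58,15743), ((-3),5,58,3), (4,10,58,245), (4,15,58,703), (3,165,58,15),
    (8,1018,58,703), ((-4),167,58,0), (4,663,58,0), ((-2),2655,58,0), ((-4),2682,58,0),
    ((-4),42362,58,0), ((-3),0,1018,3), ((-8),0,1018,15), (9,0,1018,63), ((-9),5,1018,3),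
    (8,10,1018,63), (9,165,1018,0), ((-4),58,1018,3), (8,58,1018,43), (4,87,1018,3),
    ((-4),2650,1018,0), ((-2),2655,1018,0), (4,10618,1018,0), ((-4),42490,1018,0),
    (17,0,1002,15), (4,0,1002,3935), (5,5,1002,15), (9,10,1002,15), ((-9),42,1002,0)]

def cert11 : List (ℤ × ℕ × ℕ × ℕ) :=
  [((-5),37,1002,0), (2,607,1002,0), (8,9722,1002,0), (5,346,1001,0), ((-11),1385,1001,0),
    (7,5541,1001,0), ((-8),0,701,2810), ((-8),1405,701,0), (16,22,997,0), ((-8),22,997,42),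
    ((-8),5797,997,0), ((-8),0,933,63), (4,5,933,0), (4,5,933,10), ((-14),5,933,3),
    (2,90,933,0), ((-8),0,16293,3), ((-10),5,16293,3), ((-4),5,16293,15), ((-4),5,16293,175),
    (4,5,16037,15), (2,22,16037,0), ((-2),22,16037,2), (16,362,16037,0), ((-8),357,16037,0),
    (10,0,693,250), ((-2),383,693,0), ((-4),373,693,0), ((-4),6133,693,0), (4,5,757,42),
    ((-4),22,757,42), (4,90,757,42), ((-4),0,10997,2), ((-4),5,10997,2), (8,22,10997,2),
    ((-4),90,10997,2), (4,362,10997,2), ((-2),95,10997,37), (2,95,10997,165), (14,0,11253,10),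
    (4,0,11253,2810), ((-4),1525,11253,0), (4,0,16021,15), (4,5,16021,15), ((-6),26,16021,0),
    ((-4),421,16021,0), ((-8),0,11221,2810), ((-4),1,11221,10), ((-4),21,11221,10),
    (3,2005,11221,0), (8,10,982,47), ((-6),346,15721,0), ((-4),1407,16301,0), (4,351,10621,0),
    ((-14),351,16061,0), ((-4),87,15101,0), (6,362,15717,0), (6,22,251557,0), (6,383,16053,0),
    ((-4),95,9717,0)]

def cert12 : List (ℤ × ℕ × ℕ × ℕ) :=
  [((-4),95,173557,0), (4,95,15093,0), (4,95,260853,0), (6,23,257013,0), ((-6),26,251541,0),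
    ((-4),127,260821,0), (4,31,169941,0), ((-14),31,256981,0), ((-4),7,241621,0)]

def cert : List (ℤ × ℕ × ℕ × ℕ) :=
  cert0 ++ cert1 ++ cert2 ++ cert3 ++ cert4 ++ cert5 ++ cert6 ++ cert7 ++ cert8 ++ cert9 ++
    cert10 ++ cert11 ++ cert12

/-- starting value: `- 24 (Z + Z⁻¹ - 2) (1 + X²) (Y - 1)` as list of words -/
def tgt : List (ℤ × List Lt) :=
  [(-24, [.z, .y]), (48, [.z]), (-24, [.z, .x, .x, .y]), (-24, [.z, .z, .z, .y]), (48, [.z, .z, .z]),
   (-24, [.z, .z, .z, .x, .x, .y]), (48, [.y]), (-96, []), (48, [.x, .x, .y])]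

def t0 : Tr := tgt.foldl (fun T e => ins e.1 e.2 T) .nil

theorem cert_ok : allZ (cert.foldl stp t0) = true := by decide +kernel

end Pool.Agent.Helper619.Split4
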