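import Mathlib

/-!
# Nilpotent 2-groups with a splitting automorphism of order four (problem MP_77d03c, S01237)

Definitions for the linear part of the proof.
-/

set_option autoImplicit false

namespace Pool.Agent.Helper619.Split4

/-- A set of odd units: closed under triple products and inverses, each satisfying
`x + x⁻¹ = 1 + x²`. -/
structure OddSet {R : Type*} [Ring R] (O : Set Rˣ) : Prop where
  mul3 : ∀ x ∈ O, ∀ y ∈ O, ∀ z ∈ O, x * y * z ∈ O
  inv : ∀ x ∈ O, x⁻¹ ∈ O
  rel : ∀ x ∈ O, (x : R) + ((x⁻¹ : Rˣ) : R) = 1 + (x : R) ^ 2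

/-- `e_x = 1 + x²`. -/
def ee {R : Type*} [Ring R] (x : Rˣ) : R := 1 + (x : R) ^ 2

/-- The ring spanned by the group generated by the odd units, as a `ℤ`-submodule. -/
def MO {R : Type*} [Ring R] (O : Set Rˣ) : Submodule ℤ R :=
  Submodule.span ℤ {r | ∃ g ∈ Subgroup.closure O, r = ((g : Rˣ) : R)}

/-- The augmentation ideal. -/
def DO {R : Type*} [Ring R] (O : Set Rˣ) : Submodule ℤ R :=
  Submodule.span ℤ {r | ∃ g ∈ Subgroup.closure O, ∃ h ∈ Subgroup.closure O,
    r = ((g : Rˣ) : R) - ((h : Rˣ) : R)}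

/-- The line spanned by one element. -/
def ln {R : Type*} [Ring R] (r : R) : Submodule ℤ R := Submodule.span ℤ {r}

/-- The two-sided ideal generated by `e_x`. -/
def JO {R : Type*} [Ring R] (O : Set Rˣ) (x : Rˣ) : Submodule ℤ R := MO O * ln (ee x) * MO O

/-- The derived series of a subgroup. -/
def Pser {Γ : Type*} [Group Γ] (G₀ : Subgroup Γ) : ℕ → Subgroup Γ
  | 0 => G₀
  | n + 1 => ⁅Pser G₀ n, Pser G₀ n⁆

end Pool.Agent.Helper619.Split4
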