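import Pool.Agent.Helper619.Split4.Defs

set_option autoImplicit false

namespace Pool.Agent.Helper619.Split4

theorem one_le_MO {R : Type*} [Ring R] (O : Set Rˣ) : (1 : Submodule ℤ R) ≤ MO O := by
  rw [Submodule.one_le]
  exact Submodule.subset_span ⟨1, Subgroup.one_mem _, by rw [Units.val_one]⟩

theorem MO_mul_MO {R : Type*} [Ring R] (O : Set Rˣ) : MO O * MO O = MO O := by
  apply le_antisymm
  · unfold MO
    rw [Submodule.span_mul_span, Submodule.span_le]
    rintro _ ⟨_, ⟨g, hg, rfl⟩, _, ⟨h, hh, rfl⟩, rfl⟩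
    exact Submodule.subset_span ⟨g * h, Subgroup.mul_mem _ hg hh, by simp⟩
  · intro x hx
    have := Submodule.mul_mem_mul (Submodule.one_le.1 (one_le_MO O)) hx
    rwa [one_mul] at this

theorem MO_mul_DO {R : Type*} [Ring R] (O : Set Rˣ) : MO O * DO O = DO O := by
  apply le_antisymm
  · unfold MO DO
    rw [Submodule.span_mul_span, Submodule.span_le]
    rintro _ ⟨_, ⟨g, hg, rfl⟩, _, ⟨h, hh, k, hk, rfl⟩, rfl⟩
    exact Submodule.subset_span ⟨g * h, Subgroup.mul_mem _ hg hh, g * k, Subgroup.mul_mem _ hg hk,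
      by simp [mul_sub]⟩
  · intro x hx
    have := Submodule.mul_mem_mul (Submodule.one_le.1 (one_le_MO O)) hx
    rwa [one_mul] at this

theorem DO_mul_MO {R : Type*} [Ring R] (O : Set Rˣ) : DO O * MO O = DO O := by
  apply le_antisymm
  · unfold MO DO
    rw [Submodule.span_mul_span, Submodule.span_le]
    rintro _ ⟨_, ⟨h, hh, k, hk, rfl⟩, _, ⟨g, hg, rfl⟩, rfl⟩
    exact Submodule.subset_span ⟨h * g, Subgroup.mul_mem _ hh hg, k * g, Subgroup.mul_mem _ hk hg,
      by simp [sub_mul]⟩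
  · intro x hx
    have := Submodule.mul_mem_mul hx (Submodule.one_le.1 (one_le_MO O))
    rwa [mul_one] at this

theorem DO_le_MO {R : Type*} [Ring R] (O : Set Rˣ) : DO O ≤ MO O := by
  unfold DO
  rw [Submodule.span_le]
  rintro _ ⟨h, hh, k, hk, rfl⟩
  exact Submodule.sub_mem _ (Submodule.subset_span ⟨h, hh, rfl⟩)
    (Submodule.subset_span ⟨k, hk, rfl⟩)

theorem ln_two_comm {R : Type*} [Ring R] (N : Submodule ℤ R) : ln (2 : R) * N = N * ln (2 : R) := by
  have h2 : ∀ x : R, (2 : R) * x = x * 2 := fun x => by rw [two_mul, mul_two]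
  apply le_antisymm
  · rw [Submodule.mul_le]
    intro m hm n hn
    obtain ⟨c, rfl⟩ := Submodule.mem_span_singleton.1 hm
    rw [smul_mul_assoc, h2]
    exact Submodule.smul_mem _ _ (Submodule.mul_mem_mul hn (Submodule.mem_span_singleton_self _))
  · rw [Submodule.mul_le]
    intro n hn m hm
    obtain ⟨c, rfl⟩ := Submodule.mem_span_singleton.1 hm
    rw [mul_smul_comm, ← h2]
    exact Submodule.smul_mem _ _ (Submodule.mul_mem_mul (Submodule.mem_span_singleton_self _) hn)

end Pool.Agent.Helper619.Split4
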