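import Pool.Agent.Helper619.Split4.Defs

set_option autoImplicit false

namespace Pool.Agent.Helper619.Split4

private theorem x_ee_aux {R : Type*} [Ring R] {O : Set Rˣ} (h : OddSet O) {x : Rˣ} (hx : x ∈ O) :
    (x : R) * ee x = ee x := by
  unfold ee
  rw [← h.rel x hx, mul_add, Units.mul_inv, h.rel x hx, sq, add_comm]

private theorem ee_x_aux {R : Type*} [Ring R] {O : Set Rˣ} (h : OddSet O) {x : Rˣ} (hx : x ∈ O) :
    ee x * (x : R) = ee x := by
  unfold ee
  rw [← h.rel x hx, add_mul, Units.inv_mul, h.rel x hx, sq, add_comm]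

theorem pow4 {R : Type*} [Ring R] {O : Set Rˣ} (h : OddSet O) {x : Rˣ} (hx : x ∈ O) :
    x ^ 4 = 1 := by
  have h1 := x_ee_aux h hx
  have h2 : (x : R) ^ 2 * ee x = ee x := by rw [sq, mul_assoc, h1, h1]
  apply Units.ext
  rw [Units.val_pow_eq_pow_val, Units.val_one]
  have h3 : (x : R) ^ 4 - 1 = (x : R) ^ 2 * ee x - ee x := by
    unfold ee
    noncomm_ring
  rw [← sub_eq_zero, h3, h2, sub_self]

theorem x_ee {R : Type*} [Ring R] {O : Set Rˣ} (h : OddSet O) {x : Rˣ} (hx : x ∈ O) :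
    (x : R) * ee x = ee x := x_ee_aux h hx

theorem ee_x {R : Type*} [Ring R] {O : Set Rˣ} (h : OddSet O) {x : Rˣ} (hx : x ∈ O) :
    ee x * (x : R) = ee x := ee_x_aux h hx

theorem ee_sq {R : Type*} [Ring R] {O : Set Rˣ} (h : OddSet O) {x : Rˣ} (hx : x ∈ O) :
    ee x * ee x = 2 * ee x := by
  have h1 := x_ee_aux h hx
  have h2 : (x : R) ^ 2 * ee x = ee x := by rw [sq, mul_assoc, h1, h1]
  have h3 : ee x * ee x = ee x + (x : R) ^ 2 * ee x := by
    conv_lhs => rw [show ee x * ee x = (1 + (x : R) ^ 2) * ee x from rfl]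
    rw [add_mul, one_mul]
  rw [h3, h2, two_mul]

theorem inv_eq {R : Type*} [Ring R] {O : Set Rˣ} (h : OddSet O) {x : Rˣ} (hx : x ∈ O) :
    ((x⁻¹ : Rˣ) : R) = ee x - (x : R) := by
  unfold ee
  rw [← h.rel x hx]
  abel

end Pool.Agent.Helper619.Split4
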