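import Pool.Agent.Helper619.Split4.Defs
import Pool.Agent.Helper619.Split4.G_MM

set_option autoImplicit false

namespace Pool.Agent.Helper619.Split4

private theorem commS_mem {R : Type*} [Ring R] {O : Set Rˣ} {g : Rˣ} (hg : g ∈ Subgroup.closure O) :
    (g : R) ∈ MO O := Submodule.subset_span ⟨g, hg, rfl⟩


theorem commS {R : Type*} [Ring R] {O : Set Rˣ} (G₀ : Subgroup Rˣ)
    (hG : G₀ ≤ Subgroup.closure O) (S : Submodule ℤ R) (hM1 : MO O * S ≤ S) (hM2 : S * MO O ≤ S)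
    (hc : ∀ g ∈ G₀, ∀ k ∈ G₀, (g : R) * (k : R) - (k : R) * (g : R) ∈ S) (c : Rˣ)
    (h : c ∈ ⁅G₀, G₀⁆) : (c : R) - 1 ∈ S := by
  let K : Subgroup Rˣ :=
    { carrier := {c | c ∈ Subgroup.closure O ∧ (c : R) - 1 ∈ S}
      one_mem' := ⟨Subgroup.one_mem _, by simp⟩
      mul_mem' := by
        rintro a b ⟨ha, ha'⟩ ⟨hb, hb'⟩
        refine ⟨Subgroup.mul_mem _ ha hb, ?_⟩
        have e : ((a * b : Rˣ) : R) - 1 = ((a : R) - 1) * (b : R) + ((b : R) - 1) := by
          push_cast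
          noncomm_ring
        rw [e]
        exact S.add_mem (hM2 (Submodule.mul_mem_mul ha' (commS_mem hb))) hb'
      inv_mem' := by
        rintro a ⟨ha, ha'⟩
        refine ⟨Subgroup.inv_mem _ ha, ?_⟩
        have e : ((a⁻¹ : Rˣ) : R) - 1 = -(((a⁻¹ : Rˣ) : R) * ((a : R) - 1)) := by
          rw [mul_sub, Units.inv_mul, mul_one]
          noncomm_ring
        rw [e]
        exact S.neg_mem (hM1 (Submodule.mul_mem_mul (commS_mem (Subgroup.inv_mem _ ha)) ha')) }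
  have hK : ⁅G₀, G₀⁆ ≤ K := by
    rw [Subgroup.commutator_le]
    intro g hg k hk
    show g * k * g⁻¹ * k⁻¹ ∈ K
    refine ⟨?_, ?_⟩
    · exact Subgroup.mul_mem _ (Subgroup.mul_mem _ (Subgroup.mul_mem _ (hG hg) (hG hk))
        (Subgroup.inv_mem _ (hG hg))) (Subgroup.inv_mem _ (hG hk))
    · have e : ((g * k * g⁻¹ * k⁻¹ : Rˣ) : R) - 1 =
          ((g : R) * (k : R) - (k : R) * (g : R)) * ((g⁻¹ * k⁻¹ : Rˣ) : R) := by
        rw [sub_mul]
        have e1 : (k : R) * (g : R) * ((g⁻¹ * k⁻¹ : Rˣ) : R) = 1 := by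
          rw [← Units.val_mul, ← Units.val_mul]
          have : k * g * (g⁻¹ * k⁻¹) = 1 := by group
          rw [this, Units.val_one]
        have e2 : (g : R) * (k : R) * ((g⁻¹ * k⁻¹ : Rˣ) : R) = ((g * k * g⁻¹ * k⁻¹ : Rˣ) : R) := by
          rw [← Units.val_mul, ← Units.val_mul]
          congr 1
          group
        rw [e1, e2]
      rw [e]
      exact hM2 (Submodule.mul_mem_mul (hc g hg k hk) (commS_mem
        (Subgroup.mul_mem _ (Subgroup.inv_mem _ (hG hg)) (Subgroup.inv_mem _ (hG hk)))))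
  exact (hK h).2

end Pool.Agent.Helper619.Split4
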