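import Pool.Agent.Helper619.Split4.Defs
import Pool.Agent.Helper619.Split4.G_MM
import Pool.Agent.Helper619.Split4.G_basic

set_option autoImplicit false

namespace Pool.Agent.Helper619.Split4

theorem modS {R : Type*} [Ring R] {O : Set Rˣ} (h : OddSet O) {ι : Type*} (v : ι → Rˣ)
    (hv : ∀ i, v i ∈ O) (S : Submodule ℤ R) (hS1 : ∀ i, JO O (v i) ≤ S)
    (hS2 : ∀ i j k, JO O (v i * v j * v k) ≤ S) (hM1 : MO O * S ≤ S) (hM2 : S * MO O ≤ S)
    {g k : Rˣ} (hg : g ∈ Subgroup.closure {u : Rˣ | ∃ i j, u = v i * v j})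
    (hk : k ∈ Subgroup.closure {u : Rˣ | ∃ i j, u = v i * v j}) :
    (g : R) * (k : R) - (k : R) * (g : R) ∈ S := by
  have hL : ∀ u ∈ Subgroup.closure O, ∀ s ∈ S, (u : R) * s ∈ S := fun u hu s hs =>
    hM1 (Submodule.mul_mem_mul (Submodule.subset_span ⟨u, hu, rfl⟩) hs)
  have hR : ∀ u ∈ Subgroup.closure O, ∀ s ∈ S, s * (u : R) ∈ S := fun u hu s hs =>
    hM2 (Submodule.mul_mem_mul hs (Submodule.subset_span ⟨u, hu, rfl⟩))
  have h1M : (1 : R) ∈ MO O := Submodule.one_le.1 (one_le_MO O)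
  have hE : ∀ u ∈ O, JO O u ≤ S → ((u⁻¹ : Rˣ) : R) + (u : R) ∈ S := by
    intro u hu hJ
    rw [inv_eq h hu, sub_add_cancel]
    apply hJ
    have h2 : (1 : R) * ee u * 1 ∈ JO O u :=
      Submodule.mul_mem_mul (Submodule.mul_mem_mul h1M (Submodule.mem_span_singleton_self _)) h1M
    simpa using h2
  have hvC : ∀ i, v i ∈ Subgroup.closure O := fun i => Subgroup.subset_closure (hv i)
  have h2 : ∀ i j k, (v i : R) * (v j : R) * (v k : R) - (v k : R) * (v j : R) * (v i : R) ∈ S := by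
    intro i j k
    have e1 := hE _ (h.mul3 _ (hv i) _ (hv j) _ (hv k)) (hS2 i j k)
    have e2 : (((v i * v j * v k)⁻¹ : Rˣ) : R) =
        (((v k)⁻¹ : Rˣ) : R) * (((v j)⁻¹ : Rˣ) : R) * (((v i)⁻¹ : Rˣ) : R) := by
      rw [mul_inv_rev, mul_inv_rev, Units.val_mul, Units.val_mul, mul_assoc]
    have f1 := hR _ (inv_mem (hvC i)) _ (hR _ (inv_mem (hvC j)) _ (hE _ (hv k) (hS1 k)))
    have f2 := hR _ (inv_mem (hvC i)) _ (hL _ (hvC k) _ (hE _ (hv j) (hS1 j)))
    have f3 := hL _ (hvC k) _ (hL _ (hvC j) _ (hE _ (hv i) (hS1 i)))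
    rw [e2, Units.val_mul, Units.val_mul] at e1
    have h3 := S.sub_mem e1 (S.add_mem (S.sub_mem f1 f2) f3)
    generalize (((v k)⁻¹ : Rˣ) : R) = a1 at h3
    generalize (((v j)⁻¹ : Rˣ) : R) = a2 at h3
    generalize (((v i)⁻¹ : Rˣ) : R) = a3 at h3
    generalize (v i : R) = b1 at h3 ⊢
    generalize (v j : R) = b2 at h3 ⊢
    generalize (v k : R) = b3 at h3 ⊢
    convert h3 using 1
    noncomm_ring
  have h3 : ∀ i j k l, ((v i * v j : Rˣ) : R) * ((v k * v l : Rˣ) : R) -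
      ((v k * v l : Rˣ) : R) * ((v i * v j : Rˣ) : R) ∈ S := by
    intro i j k l
    have f1 := hL _ (hvC i) _ (h2 j k l)
    have f2 := hR _ (hvC j) _ (h2 i l k)
    have h4 := S.add_mem f1 f2
    rw [Units.val_mul, Units.val_mul]
    generalize (v i : R) = b1 at h4 ⊢
    generalize (v j : R) = b2 at h4 ⊢
    generalize (v k : R) = b3 at h4 ⊢
    generalize (v l : R) = b4 at h4 ⊢
    convert h4 using 1
    noncomm_ring
  have hGC : Subgroup.closure {u : Rˣ | ∃ i j, u = v i * v j} ≤ Subgroup.closure O := by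
    rw [Subgroup.closure_le]
    rintro u ⟨i, j, rfl⟩
    exact mul_mem (hvC i) (hvC j)
  have step : ∀ w : Rˣ, (∀ i j, ((v i * v j : Rˣ) : R) * (w : R) -
      (w : R) * ((v i * v j : Rˣ) : R) ∈ S) →
      ∀ x ∈ Subgroup.closure {u : Rˣ | ∃ i j, u = v i * v j},
        (x : R) * (w : R) - (w : R) * (x : R) ∈ S := by
    intro w hw x hx
    induction hx using Subgroup.closure_induction with
    | mem x hx =>
      obtain ⟨i, j, rfl⟩ := hx
      exact hw i j
    | one =>
      rw [Units.val_one, one_mul, mul_one, sub_self]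
      exact S.zero_mem
    | mul x y hx hy ihx ihy =>
      have f1 := hL _ (hGC hx) _ ihy
      have f2 := hR _ (hGC hy) _ ihx
      have h4 := S.add_mem f1 f2
      rw [Units.val_mul]
      generalize (x : R) = b1 at h4 ⊢
      generalize (y : R) = b2 at h4 ⊢
      generalize (w : R) = b3 at h4 ⊢
      convert h4 using 1
      noncomm_ring
    | inv x hx ih =>
      have f1 := hL _ (inv_mem (hGC hx)) _ (hR _ (inv_mem (hGC hx)) _ ih)
      have h4 := S.neg_mem f1
      convert h4 using 1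
      simp only [sub_mul, mul_sub, mul_assoc, Units.mul_inv, Units.inv_mul_cancel_left, mul_one,
        neg_sub]
  refine step k (fun i j => ?_) g hg
  have h5 := step (v i * v j) (fun i' j' => h3 i' j' i j) k hk
  have h6 := S.neg_mem h5
  rwa [neg_sub] at h6

end Pool.Agent.Helper619.Split4
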