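import Pool.Agent.Helper619.Split4.Defs
import Pool.Agent.Helper619.Split4.G_basic

set_option autoImplicit false

namespace Pool.Agent.Helper619.Split4

theorem clos_or {R : Type*} [Ring R] {O : Set Rˣ} (h : OddSet O) {x : Rˣ} (hx : x ∈ O) {w : Rˣ}
    (hw : w ∈ Subgroup.closure O) : w ∈ O ∨ (w * x ∈ O ∧ x * w ∈ O) := by
  induction hw using Subgroup.closure_induction with
  | mem w hw => exact Or.inl hw
  | one => right; simpa using hx
  | mul w1 w2 _ _ h1 h2 =>
    rcases h1 with a | ⟨a1, a2⟩ <;> rcases h2 with b | ⟨b1, b2⟩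
    · right
      refine ⟨h.mul3 w1 a w2 b x hx, ?_⟩
      have := h.mul3 x hx w1 a w2 b
      rwa [mul_assoc] at this
    · left
      have := h.mul3 w1 a x⁻¹ (h.inv x hx) (x * w2) b2
      have e : w1 * x⁻¹ * (x * w2) = w1 * w2 := by group
      rwa [e] at this
    · left
      have := h.mul3 (w1 * x) a1 x⁻¹ (h.inv x hx) w2 b
      have e : w1 * x * x⁻¹ * w2 = w1 * w2 := by group
      rwa [e] at this
    · right
      refine ⟨?_, ?_⟩
      · have := h.mul3 (w1 * x) a1 x⁻¹ (h.inv x hx) (w2 * x) b1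
        have e : w1 * x * x⁻¹ * (w2 * x) = w1 * w2 * x := by group
        rwa [e] at this
      · have := h.mul3 (x * w1) a2 x⁻¹ (h.inv x hx) (x * w2) b2
        have e : x * w1 * x⁻¹ * (x * w2) = x * (w1 * w2) := by group
        rwa [e] at this
  | inv w _ h1 =>
    rcases h1 with a | ⟨a1, a2⟩
    · exact Or.inl (h.inv w a)
    · right
      refine ⟨?_, ?_⟩
      · have := h.mul3 x hx _ (h.inv _ a1) x hx
        have e : x * (w * x)⁻¹ * x = w⁻¹ * x := by group
        rwa [e] at this
      · have := h.mul3 x hx _ (h.inv _ a2) x hx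
        have e : x * (x * w)⁻¹ * x = x * w⁻¹ := by group
        rwa [e] at this

end Pool.Agent.Helper619.Split4
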