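import Pool.Agent.Helper619.Split4.Cert

set_option autoImplicit false

namespace Pool.Agent.Helper619.Split4

section sem
variable {R : Type*} [Ring R] (x y z : Rˣ) (a : R)

private def vu : Lt → Rˣ
  | .x => x
  | .y => y
  | .z => z

private def uw : List Lt → Rˣ
  | [] => 1
  | l :: w => vu x y z l * uw w

private def ev (w : List Lt) : R := ((uw x y z w : Rˣ) : R) * a

private def sem : Tr → R
  | .nil => 0
  | .node c tx ty tz => (c : R) * a + (x : R) * sem tx + (y : R) * sem ty + (z : R) * sem tz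

private theorem ev_cons (l : Lt) (w : List Lt) :
    ev x y z a (l :: w) = ((vu x y z l : Rˣ) : R) * ev x y z a w := by
  simp [ev, uw, mul_assoc]

private theorem four {x : Rˣ} (h : x ^ 4 = 1) (r : R) :
    (x : R) * ((x : R) * ((x : R) * ((x : R) * r))) = r := by
  have h1 : (x : R) * ((x : R) * ((x : R) * (x : R))) = 1 := by
    have := congrArg (fun u : Rˣ => (u : R)) h
    simp only [Units.val_pow_eq_pow_val, Units.val_one] at this
    rw [← this]; noncomm_ring
  calc _ = ((x : R) * ((x : R) * ((x : R) * (x : R)))) * r := by noncomm_ring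
    _ = r := by rw [h1, one_mul]

private theorem ev_cs (hx : x ^ 4 = 1) (hy : y ^ 4 = 1) (hz : z ^ 4 = 1) (ha : (x : R) * a = a)
    (l : Lt) (w : List Lt) :
    ev x y z a (cs l w) = ((vu x y z l : Rˣ) : R) * ev x y z a w := by
  unfold cs
  split
  · simp [ev, uw, vu, ha]
  · simp only [ev_cons, vu]; rw [four hx]
  · simp only [ev_cons, vu]; rw [four hy]
  · simp only [ev_cons, vu]; rw [four hz]
  · rw [ev_cons]

private theorem ev_ap (hx : x ^ 4 = 1) (hy : y ^ 4 = 1) (hz : z ^ 4 = 1) (ha : (x : R) * a = a)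
    (u w : List Lt) :
    ev x y z a (ap u w) = ((uw x y z u : Rˣ) : R) * ev x y z a w := by
  induction u with
  | nil => simp [ap, uw]
  | cons l u ih => rw [ap, ev_cs x y z a hx hy hz ha, ih, uw, Units.val_mul, mul_assoc]

private theorem uw_append (u w : List Lt) : uw x y z (u ++ w) = uw x y z u * uw x y z w := by
  induction u with
  | nil => simp [uw]
  | cons l u ih => simp [uw, ih, mul_assoc]

private theorem uw_iv (hx : x ^ 4 = 1) (hy : y ^ 4 = 1) (hz : z ^ 4 = 1) (u : List Lt) :
    uw x y z (iv u) = (uw x y z u)⁻¹ := by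
  induction u with
  | nil => simp [iv, uw]
  | cons l u ih =>
    have h1 : iv (l :: u) = iv u ++ [l, l, l] := by simp [iv, List.flatMap_append]
    have h2 : ∀ l, vu x y z l ^ 4 = 1 := by intro l; cases l <;> simp [vu, hx, hy, hz]
    have h3 : uw x y z [l, l, l] = (vu x y z l)⁻¹ := by
      rw [eq_inv_iff_mul_eq_one, ← h2 l]
      simp [uw, pow_succ, mul_assoc]
    have h4 : uw x y z (l :: u) = vu x y z l * uw x y z u := rfl
    rw [h1, uw_append, ih, h3, h4, mul_inv_rev]

private theorem uw_odd {O : Set Rˣ} (h : OddSet O) (hx : x ∈ O) (hy : y ∈ O) (hz : z ∈ O) :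
    ∀ u : List Lt, oddL u = true → uw x y z u ∈ O
  | [], h0 => by simp [oddL] at h0
  | [l], _ => by
      simp only [uw, mul_one]
      cases l
      · exact hx
      · exact hy
      · exact hz
  | l :: l' :: t, h0 => by
      have ht := uw_odd h hx hy hz t (by simpa [oddL] using h0)
      have hl : ∀ l, vu x y z l ∈ O := by
        intro l; cases l
        · exact hx
        · exact hy
        · exact hz
      have := h.mul3 _ (hl l) _ (hl l') _ ht
      simpa [uw, mul_assoc] using this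

private theorem sem_ins (c : ℤ) : ∀ (w : List Lt) (T : Tr),
    sem x y z a (ins c w T) = (c : R) * ev x y z a w + sem x y z a T := by
  intro w
  induction w with
  | nil =>
    intro T
    cases T with
    | nil => simp [ins, sem, ev, uw]
    | node d tx ty tz => simp [ins, sem, ev, uw]; noncomm_ring
  | cons l w ih =>
    intro T
    have hc : ∀ r s : R, r * ((c : R) * s) = (c : R) * (r * s) := by
      intro r s
      rw [← mul_assoc, ← mul_assoc, (Int.cast_commute c r).eq]
    cases T with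
    | nil => cases l <;> simp [ins, sem, ih, ev_cons, vu, hc]
    | node d tx ty tz =>
      cases l <;> simp only [ins, sem, ih, ev_cons, vu, mul_add, hc] <;> abel

private theorem sem_stp {O : Set Rˣ} (h : OddSet O) (hxO : x ∈ O) (hyO : y ∈ O) (hzO : z ∈ O)
    (hx : x ^ 4 = 1) (hy : y ^ 4 = 1) (hz : z ^ 4 = 1) (ha : (x : R) * a = a)
    (T : Tr) (e : ℤ × ℕ × ℕ × ℕ) : sem x y z a (stp T e) = sem x y z a T := by
  unfold stp
  simp only
  split
  · rfl
  · rename_i hodd
    have hV := h.rel _ (uw_odd x y z h hxO hyO hzO _ hodd)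
    simp only [sem_ins, ev_ap x y z a hx hy hz ha, uw_iv x y z hx hy hz]
    set U : R := ((uw x y z (dec 20 e.2.1) : Rˣ) : R)
    set V : R := ((uw x y z (dec 20 e.2.2.1) : Rˣ) : R)
    set V' : R := (((uw x y z (dec 20 e.2.2.1))⁻¹ : Rˣ) : R)
    set W : R := ((uw x y z (dec 20 e.2.2.2) : Rˣ) : R) * ev x y z a []
    have hV2 : V' = 1 + V ^ 2 - V := by rw [← hV]; abel
    rw [hV2]
    push_cast
    noncomm_ring

private theorem sem_fold {O : Set Rˣ} (h : OddSet O) (hxO : x ∈ O) (hyO : y ∈ O) (hzO : z ∈ O)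
    (hx : x ^ 4 = 1) (hy : y ^ 4 = 1) (hz : z ^ 4 = 1) (ha : (x : R) * a = a)
    (l : List (ℤ × ℕ × ℕ × ℕ)) : ∀ T : Tr,
    sem x y z a (l.foldl stp T) = sem x y z a T := by
  induction l with
  | nil => intro T; rfl
  | cons e l ih => intro T; rw [List.foldl_cons, ih, sem_stp x y z a h hxO hyO hzO hx hy hz ha]

private theorem sem_allZ : ∀ T : Tr, allZ T = true → sem x y z a T = 0 := by
  intro T
  induction T with
  | nil => intro _; rfl
  | node c tx ty tz ihx ihy ihz =>
    intro hT
    simp only [allZ, Bool.and_eq_true, beq_iff_eq] at hT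
    obtain ⟨⟨⟨h0, h1⟩, h2⟩, h3⟩ := hT
    simp [sem, h0, ihx h1, ihy h2, ihz h3]

end sem

private theorem pow4' {R : Type*} [Ring R] {O : Set Rˣ} (h : OddSet O) {x : Rˣ} (hx : x ∈ O) :
    x ^ 4 = 1 := by
  have h1 := h.rel x hx
  have h2 : (x : R) ^ 2 + 1 = (x : R) + (x : R) ^ 3 := by
    have := congrArg (fun r => (x : R) * r) h1
    simp only [mul_add, mul_one, Units.mul_inv] at this
    rw [pow_two] at this ⊢
    rw [this]; noncomm_ring
  apply Units.ext
  rw [Units.val_pow_eq_pow_val, Units.val_one]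
  have h3 : (x : R) ^ 3 = (x : R) ^ 2 + 1 - (x : R) := by rw [h2]; abel
  have h4 : (x : R) ^ 4 = (x : R) * (x : R) ^ 3 := by noncomm_ring
  rw [h4, h3]
  have h5 : (x : R) * ((x : R) ^ 2 + 1 - (x : R)) = (x : R) ^ 3 + (x : R) - (x : R) ^ 2 := by
    noncomm_ring
  rw [h5, h3]; abel

theorem key24 {R : Type*} [Ring R] {O : Set Rˣ} (h : OddSet O) {x y z : Rˣ} (hx : x ∈ O)
    (hy : y ∈ O) (hz : z ∈ O) (a : R) (ha : (x : R) * a = a) :
    24 * (((z : R) + ((z⁻¹ : Rˣ) : R) - 2) * (1 + (x : R) ^ 2) * ((y : R) - 1) * a) = 0 := by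
  have hx4 := pow4' h hx
  have hy4 := pow4' h hy
  have hz4 := pow4' h hz
  have h0 := sem_allZ x y z a _ cert_ok
  rw [sem_fold x y z a h hx hy hz hx4 hy4 hz4 ha] at h0
  simp only [t0, tgt, List.foldl_cons, List.foldl_nil, sem_ins, ev_cons, vu] at h0
  simp only [ev, uw, sem, Units.val_one, one_mul, add_zero] at h0
  have hzi : ((z⁻¹ : Rˣ) : R) = (z : R) * ((z : R) * (z : R)) := by
    have : z⁻¹ = z * (z * z) := by
      rw [inv_eq_iff_mul_eq_one, ← hz4]; simp [pow_succ, mul_assoc]
    rw [this]; push_cast; rfl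
  rw [hzi]
  push_cast at h0
  have hxx : (x : R) ^ 2 * a = a := by rw [pow_two, mul_assoc, ha, ha]
  have e1 : 24 * (((z : R) + (z : R) * ((z : R) * (z : R)) - 2) * (1 + (x : R) ^ 2) *
      ((y : R) - 1) * a) = 24 * (((z : R) + (z : R) * ((z : R) * (z : R)) - 2) *
      ((1 + (x : R) * (x : R)) * ((y : R) * a)) - ((z : R) + (z : R) * ((z : R) * (z : R)) - 2) *
      (a + (x : R) ^ 2 * a)) := by noncomm_ring
  rw [e1, hxx]
  rw [← neg_eq_zero]
  rw [← h0]
  noncomm_ring

end Pool.Agent.Helper619.Split4
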