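import Pool.Agent.Helper619.Split4.Defs
import Pool.Agent.Helper619.Split4.G_basic
import Pool.Agent.Helper619.Split4.G_clos_or
import Pool.Agent.Helper619.Split4.Key

set_option autoImplicit false

namespace Pool.Agent.Helper619.Split4

theorem fixall {R : Type*} [Ring R] {O : Set Rˣ} (h : OddSet O) {x g w : Rˣ} (hx : x ∈ O)
    (hg : g ∈ Subgroup.closure O) (hw : w ∈ Subgroup.closure O) :
    48 * (((g : R) - 1) * (ee x * ((w : R) - 1) * ee x)) = 0 := by
  obtain ⟨y, hy, hTy⟩ : ∃ y : Rˣ, y ∈ O ∧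
      ee x * ((w : R) - 1) * ee x = ee x * ((y : R) - 1) * ee x := by
    rcases clos_or h hx hw with hwO | ⟨hwx, _⟩
    · exact ⟨w, hwO, rfl⟩
    · refine ⟨w * x, hwx, ?_⟩
      have h1 : (x : R) * ee x = ee x := x_ee h hx
      push_cast
      have e1 : ee x * ((w : R) * (x : R) - 1) * ee x
          = ee x * (w : R) * ((x : R) * ee x) - ee x * ee x := by noncomm_ring
      rw [e1, h1]
      noncomm_ring
  rw [hTy]
  set T : R := ee x * ((y : R) - 1) * ee x with hT
  have step1 : ∀ z ∈ O, 48 * (((z : R) - 1) * T) = 0 := by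
    intro z hz
    have k := key24 h hx hy hz (ee x) (x_ee h hx)
    have hr := h.rel z hz
    have e0 : ((z : R) + ((z⁻¹ : Rˣ) : R) - 2) * (1 + (x : R) ^ 2) * ((y : R) - 1) * ee x
        = ((z : R) ^ 2 - 1) * T := by
      rw [hr, hT]
      have : (1 : R) + (z : R) ^ 2 - 2 = (z : R) ^ 2 - 1 := by
        have h2 : (2 : R) = 1 + 1 := by norm_num
        rw [h2]; abel
      rw [this]
      unfold ee
      noncomm_ring
    rw [e0] at k
    -- k : 24 * ((z^2 - 1) * T) = 0
    have k2 : 24 * ((z : R) * T) - 24 * (((z⁻¹ : Rˣ) : R) * T) = 0 := by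
      have e1 : ((z⁻¹ : Rˣ) : R) * (24 * (((z : R) ^ 2 - 1) * T)) = 0 := by rw [k, mul_zero]
      have hc : ((z⁻¹ : Rˣ) : R) * (24 : R) = 24 * ((z⁻¹ : Rˣ) : R) :=
        (Nat.cast_commute 24 ((z⁻¹ : Rˣ) : R)).symm.eq
      have hzz : ((z⁻¹ : Rˣ) : R) * (z : R) = 1 := Units.inv_mul z
      rw [← mul_assoc, hc, mul_assoc] at e1
      have e2 : ((z⁻¹ : Rˣ) : R) * (((z : R) ^ 2 - 1) * T)
          = (((z⁻¹ : Rˣ) : R) * (z : R)) * ((z : R) * T) - ((z⁻¹ : Rˣ) : R) * T := by
        noncomm_ring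
      rw [e2, hzz, one_mul, mul_sub] at e1
      exact e1
    have e3 : (48 : R) * (((z : R) - 1) * T)
        = (24 * ((z : R) * T) - 24 * (((z⁻¹ : Rˣ) : R) * T))
          + 24 * ((((z : R) + ((z⁻¹ : Rˣ) : R)) - 2) * T) := by
      noncomm_ring
    have e4 : (24 : R) * ((((z : R) + ((z⁻¹ : Rˣ) : R)) - 2) * T) = 0 := by
      rw [hr]
      have : (1 : R) + (z : R) ^ 2 - 2 = (z : R) ^ 2 - 1 := by
        have h2 : (2 : R) = 1 + 1 := by norm_num
        rw [h2]; abel
      rw [this]; exact k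
    rw [e3, k2, e4, add_zero]
  have main : ∀ g ∈ Subgroup.closure O, 48 * (((g : R) - 1) * T) = 0 := by
    intro g hg
    induction hg using Subgroup.closure_induction with
    | mem z hz => exact step1 z hz
    | one => simp
    | mul a b _ _ iha ihb =>
      have hc : (48 : R) * (a : R) = (a : R) * 48 := (Nat.cast_commute 48 (a : R)).eq
      have : (48 : R) * ((((a * b : Rˣ) : R) - 1) * T)
          = (48 * (a : R)) * (((b : R) - 1) * T) + 48 * (((a : R) - 1) * T) := by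
        push_cast
        noncomm_ring
      rw [this, iha, add_zero, hc, mul_assoc, ihb, mul_zero]
    | inv a _ iha =>
      have hc : (48 : R) * ((a⁻¹ : Rˣ) : R) = ((a⁻¹ : Rˣ) : R) * 48 :=
        (Nat.cast_commute 48 ((a⁻¹ : Rˣ) : R)).eq
      have haa : ((a⁻¹ : Rˣ) : R) * (a : R) = 1 := Units.inv_mul a
      have e1 : (((a⁻¹ : Rˣ) : R) - 1) * T = - (((a⁻¹ : Rˣ) : R) * (((a : R) - 1) * T)) := by
        have : ((a⁻¹ : Rˣ) : R) * (((a : R) - 1) * T)
            = (((a⁻¹ : Rˣ) : R) * (a : R)) * T - ((a⁻¹ : Rˣ) : R) * T := by noncomm_ring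
        rw [this, haa]; noncomm_ring
      rw [e1, mul_neg, ← mul_assoc, hc, mul_assoc, iha, mul_zero, neg_zero]
  exact main g hg

end Pool.Agent.Helper619.Split4
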