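import Pool.Agent.Helper619.Split4.Defs
import Pool.Agent.Helper619.Split4.G_basic

set_option autoImplicit false

namespace Pool.Agent.Helper619.Split4

private theorem neg_self_two {S : Type*} [Ring S] (h2 : (2 : S) = 0) (a : S) : -a = a := by
  have h : a + a = 0 := by rw [← two_mul, h2, zero_mul]
  exact neg_eq_of_add_eq_zero_left h

private theorem ee_sq_two {S : Type*} [Ring S] (h2 : (2 : S) = 0) {O : Set Sˣ} (h : OddSet O) {x : Sˣ}
    (hx : x ∈ O) : ee x * ee x = 0 := by rw [ee_sq h hx, h2, zero_mul]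

private theorem inv_two {S : Type*} [Ring S] (h2 : (2 : S) = 0) {O : Set Sˣ} (h : OddSet O) {v : Sˣ}
    (hv : v ∈ O) : ((v⁻¹ : Sˣ) : S) = (v : S) + 1 + (v : S) ^ 2 := by
  have h1 := h.rel v hv
  have h3 : ((v⁻¹ : Sˣ) : S) = 1 + (v : S) ^ 2 + -(v : S) := by rw [← h1]; abel
  rw [h3, neg_self_two h2]; abel

theorem two_a {S : Type*} [Ring S] (h2 : (2 : S) = 0) {O : Set Sˣ} (h : OddSet O) {x v : Sˣ}
    (hx : x ∈ O) (hv : v ∈ O) :
    ee x * (v : S) * ee x =
      ee x * (v : S) + (v : S) * ee x + ee x + ((v⁻¹ : Sˣ) : S) * ee x * ((v⁻¹ : Sˣ) : S) := by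
  have hw := h.rel _ (h.mul3 v hv x hx x hx)
  have hv' := h.rel v hv
  have hxx : (x : S) * (x : S) = 1 + ee x := by
    unfold ee
    have : (1 : S) + (1 + (x : S) ^ 2) = 2 + (x : S) ^ 2 := by
      rw [← add_assoc, one_add_one_eq_two]
    rw [this, h2, zero_add, sq]
  have hx4 := pow4 h hx
  have hxi : x⁻¹ * x⁻¹ = x * x := by
    have h5 : x * x * (x * x) = 1 := by
      rw [← hx4]; simp [pow_succ, mul_assoc]
    calc x⁻¹ * x⁻¹ = x⁻¹ * x⁻¹ * (x * x * (x * x)) := by rw [h5, mul_one]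
      _ = x * x := by simp [mul_assoc]
  have hwi : (((v * x * x)⁻¹ : Sˣ) : S) = (1 + ee x) * ((v⁻¹ : Sˣ) : S) := by
    have h6 : (v * x * x)⁻¹ = x * x * v⁻¹ := by
      rw [← hxi]; group
    rw [h6, Units.val_mul, Units.val_mul, hxx]
  have hwv : ((v * x * x : Sˣ) : S) = (v : S) * (1 + ee x) := by
    rw [Units.val_mul, Units.val_mul, mul_assoc, hxx]
  rw [hwi, hwv] at hw
  have hVV : ((v⁻¹ : Sˣ) : S) * (v : S) = 1 := Units.inv_mul v
  generalize (v : S) = V at *
  generalize ((v⁻¹ : Sˣ) : S) = V' at *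
  generalize ee x = e at *
  have h7 : V * e + e * V' = V * V * e + V * e * V + V * e * V * e := by
    have l : V * e + e * V' = (V * (1 + e) + (1 + e) * V') - (V + V') := by noncomm_ring
    rw [l, hw, hv']
    noncomm_ring
  have h8 : e + V' * e * V' = V * e + e * V + e * V * e := by
    have l : V' * (V * e + e * V') = (V' * V) * e + V' * e * V' := by noncomm_ring
    have r : V' * (V * V * e + V * e * V + V * e * V * e) =
        (V' * V) * V * e + (V' * V) * e * V + (V' * V) * e * V * e := by noncomm_ring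
    rw [h7, r, hVV] at l
    simpa using l.symm
  have h9 : e * V * e = e + V' * e * V' + -(V * e) + -(e * V) := by rw [h8]; abel
  rw [h9, neg_self_two h2, neg_self_two h2]
  abel

theorem two_b {S : Type*} [Ring S] (h2 : (2 : S) = 0) {O : Set Sˣ} (h : OddSet O) {x v : Sˣ}
    (hx : x ∈ O) (hv : v ∈ O) :
    ee x * (v : S) * ee x * (v : S) = ee x * ((v⁻¹ : Sˣ) : S) * ee x := by
  have hA := two_a h2 h hx hv
  have hee := ee_sq_two h2 h hx
  have hVV : ((v⁻¹ : Sˣ) : S) * (v : S) = 1 := Units.inv_mul v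
  generalize (v : S) = V at *
  generalize ((v⁻¹ : Sˣ) : S) = V' at *
  generalize ee x = e at *
  have h1 : e * (e * V * e) = e * (e * V + V * e + e + V' * e * V') := by rw [← hA]
  have l : e * (e * V * e) = (e * e) * V * e := by noncomm_ring
  have r : e * (e * V + V * e + e + V' * e * V') = (e * e) * V + e * V * e + e * e + e * V' * e * V' := by
    noncomm_ring
  rw [l, r, hee] at h1
  have h3 : e * V * e + e * V' * e * V' = 0 := by simpa using h1.symm
  have h4 : e * V * e = e * V' * e * V' := by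
    rw [← neg_self_two h2 (e * V' * e * V')]
    exact eq_neg_of_add_eq_zero_left h3
  rw [h4, mul_assoc, hVV, mul_one]

theorem two_c {S : Type*} [Ring S] (h2 : (2 : S) = 0) {O : Set Sˣ} (h : OddSet O) {x v : Sˣ}
    (hx : x ∈ O) (hv : v ∈ O) :
    (v : S) * (ee x * (v : S) * ee x) = ee x * ((v⁻¹ : Sˣ) : S) * ee x := by
  have hA := two_a h2 h hx hv
  have hee := ee_sq_two h2 h hx
  have hVV : (v : S) * ((v⁻¹ : Sˣ) : S) = 1 := Units.mul_inv v
  generalize (v : S) = V at *
  generalize ((v⁻¹ : Sˣ) : S) = V' at *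
  generalize ee x = e at *
  have h1 : (e * V * e) * e = (e * V + V * e + e + V' * e * V') * e := by rw [← hA]
  have l : (e * V * e) * e = e * V * (e * e) := by noncomm_ring
  have r : (e * V + V * e + e + V' * e * V') * e = e * V * e + V * (e * e) + e * e + V' * e * V' * e := by
    noncomm_ring
  rw [l, r, hee] at h1
  have h3 : e * V * e + V' * e * V' * e = 0 := by simpa using h1.symm
  have h4 : e * V * e = V' * e * V' * e := by
    rw [← neg_self_two h2 (V' * e * V' * e)]
    exact eq_neg_of_add_eq_zero_left h3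
  rw [h4]
  have h5 : V * (V' * e * V' * e) = (V * V') * (e * V' * e) := by noncomm_ring
  rw [h5, hVV, one_mul]

private theorem two_sq {S : Type*} [Ring S] (h2 : (2 : S) = 0) {O : Set Sˣ} (h : OddSet O) {x v : Sˣ}
    (hx : x ∈ O) (hv : v ∈ O) :
    ee x * (v : S) ^ 2 * ee x = ee x * (v : S) * ee x + ee x * ((v⁻¹ : Sˣ) : S) * ee x := by
  have hee := ee_sq_two h2 h hx
  have hi := inv_two h2 h hv
  have l : ee x * ((v : S) + 1 + (v : S) ^ 2) * ee x =
      ee x * (v : S) * ee x + ee x * ee x + ee x * (v : S) ^ 2 * ee x := by noncomm_ring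
  rw [hi, l, hee, add_zero, ← add_assoc]
  have h0 : ee x * (v : S) * ee x + ee x * (v : S) * ee x = 0 := by
    rw [← two_mul, h2, zero_mul]
  rw [h0, zero_add]

theorem two_d {S : Type*} [Ring S] (h2 : (2 : S) = 0) {O : Set Sˣ} (h : OddSet O) {x v : Sˣ}
    (hx : x ∈ O) (hv : v ∈ O) :
    ee x * (v : S) ^ 2 * ee x = ee x * (v : S) * ee x * (1 + (v : S)) := by
  rw [two_sq h2 h hx hv, mul_add, mul_one, two_b h2 h hx hv]

theorem two_e {S : Type*} [Ring S] (h2 : (2 : S) = 0) {O : Set Sˣ} (h : OddSet O) {x v : Sˣ}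
    (hx : x ∈ O) (hv : v ∈ O) :
    ee x * (v : S) ^ 2 * ee x = (1 + (v : S)) * (ee x * (v : S) * ee x) := by
  rw [two_sq h2 h hx hv, add_mul, one_mul, two_c h2 h hx hv]

end Pool.Agent.Helper619.Split4
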