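import Pool.Agent.Helper619.Split4.Defs
import Pool.Agent.Helper619.Split4.G_basic
import Pool.Agent.Helper619.Split4.G_two_L2

set_option autoImplicit false

namespace Pool.Agent.Helper619.Split4

theorem two_k1 {S : Type*} [Ring S] (h2 : (2 : S) = 0) {O : Set Sˣ} (h : OddSet O) {x y : Sˣ}
    (hx : x ∈ O) (hy : y ∈ O) :
    (1 + (y : S)) * ee x * ee y + ee y * ee x * (1 + (y : S)) =
      ee x * ee y * ee x + ee y * ee x * ee y := by
  have hw := h.rel _ (h.mul3 x hx y hy x hx)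
  have hX' := inv_eq h hx
  have hY' := inv_eq h hy
  have hA := two_a h2 h hx hy
  have h4 := pow4 h hx
  -- inverse square
  have hsq : (x⁻¹ : Sˣ) * x⁻¹ = x * x := by
    have : x * x * (x * x) = 1 := by
      rw [← h4, pow_succ, pow_succ, pow_two, mul_assoc (x * x)]
    calc (x⁻¹ : Sˣ) * x⁻¹ = (x⁻¹ * x⁻¹) * 1 := by rw [mul_one]
      _ = (x⁻¹ * x⁻¹) * (x * x * (x * x)) := by rw [this]
      _ = x * x := by simp [mul_assoc]
  have hsq' : ((x⁻¹ : Sˣ) : S) * ((x⁻¹ : Sˣ) : S) = (x : S) * (x : S) := by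
    have := congrArg (fun u : Sˣ => (u : S)) hsq
    simpa using this
  have hXX : (x : S) * (x : S) = ee x - 1 := by
    unfold ee; rw [pow_two]; abel
  have hYY : (y : S) * (y : S) = ee y - 1 := by
    unfold ee; rw [pow_two]; abel
  have hwi : (((x * y * x)⁻¹ : Sˣ) : S) =
      ((x⁻¹ : Sˣ) : S) * ((y⁻¹ : Sˣ) : S) * ((x⁻¹ : Sˣ) : S) := by
    rw [mul_inv_rev, mul_inv_rev, Units.val_mul, Units.val_mul, mul_assoc]
  rw [hwi] at hw
  simp only [Units.val_mul] at hw
  have hxx' : (x : S) * ((x⁻¹ : Sˣ) : S) = 1 := Units.mul_inv x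
  have hx'x : ((x⁻¹ : Sˣ) : S) * (x : S) = 1 := Units.inv_mul x
  -- abstract
  generalize hXi : ((x⁻¹ : Sˣ) : S) = Xi at *
  generalize hYi : ((y⁻¹ : Sˣ) : S) = Yi at *
  generalize hX : (x : S) = X at *
  generalize hY : (y : S) = Y at *
  generalize he : ee x = e at *
  generalize hf : ee y = f at *
  have R1 : Y + (e - 1) * (f - Y) * (e - 1) = (e - 1) + Y * (e - 1) * Y := by
    have h1 : Xi * (X * Y * X + Xi * Yi * Xi) * Xi = Xi * (1 + (X * Y * X) ^ 2) * Xi := by rw [hw]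
    have h3 : Xi * (X * Y * X + Xi * Yi * Xi) * Xi =
        (Xi * X) * Y * (X * Xi) + (Xi * Xi) * Yi * (Xi * Xi) := by noncomm_ring
    have h5 : Xi * (1 + (X * Y * X) ^ 2) * Xi =
        Xi * Xi + (Xi * X) * Y * (X * X) * Y * (X * Xi) := by noncomm_ring
    rw [h3, h5, hxx', hx'x, hsq', hXX, hY'] at h1
    simpa using h1
  have R1' : e * f * e - e * f - f * e + f - e * Y * e + e * Y + Y * e - (e - 1 + Y * e * Y) = - (f - 1) := by
    rw [← hYY]
    linear_combination (norm := noncomm_ring) R1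
  rw [hY'] at hA
  have hA' : e * Y * e = e * Y + Y * e + e + (f * e * f - f * e * Y - Y * e * f + Y * e * Y) := by
    rw [hA]; noncomm_ring
  have hfin : (1 + Y) * e * f + f * e * (1 + Y) - (e * f * e + f * e * f) =
      (e * Y + Y * e + f - e * Y * e) * 2 := by
    have e3 : (e * Y + Y * e + f - e * Y * e) * 2 = (e * Y + Y * e + f - e * Y * e) + (e * Y + Y * e + f - e * Y * e) := by
      rw [mul_two]
    rw [e3]
    linear_combination (norm := noncomm_ring) hA' - R1'
  rw [h2, mul_zero] at hfin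
  exact sub_eq_zero.mp hfin

end Pool.Agent.Helper619.Split4
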