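import Pool.Agent.Helper619.Split4.Defs
import Pool.Agent.Helper619.Split4.G_basic
import Pool.Agent.Helper619.Split4.G_two_L2
import Pool.Agent.Helper619.Split4.G_two_k1

set_option autoImplicit false

namespace Pool.Agent.Helper619.Split4

theorem two_k2 {S : Type*} [Ring S] (h2 : (2 : S) = 0) {O : Set Sˣ} (h : OddSet O) {x y : Sˣ}
    (hx : x ∈ O) (hy : y ∈ O) :
    ee x * (y : S) ^ 2 * ee x = 0 := by
  have hdd : ∀ a : S, a + a = 0 := fun a => by rw [← two_mul, h2, zero_mul]
  have hneg : ∀ a : S, -a = a := fun a => (eq_neg_of_add_eq_zero_left (hdd a)).symm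
  have hsq : ∀ z : Sˣ, (1 + (z : S)) * (1 + (z : S)) = ee z := by
    intro z
    have h1 : (1 + (z : S)) * (1 + (z : S)) = 1 + (z : S) ^ 2 + ((z : S) + (z : S)) := by
      noncomm_ring
    rw [h1, hdd, add_zero]
    rfl
  have hkill : ∀ z : Sˣ, z ∈ O → (1 + (z : S)) * ee z = 0 := by
    intro z hz
    rw [add_mul, one_mul, x_ee h hz, hdd]
  have hee : ee x * ee x = 0 := by rw [ee_sq h hx, h2, zero_mul]
  -- the target is K
  have hK : ee x * (y : S) ^ 2 * ee x = ee x * ee y * ee x := by
    have h1 : (y : S) ^ 2 = ee y + 1 := by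
      unfold ee
      have h3 : (1 : S) + (y : S) ^ 2 + 1 = (y : S) ^ 2 + (1 + 1) := by abel
      rw [h3, hdd, add_zero]
    rw [h1, mul_add, mul_one, add_mul, hee, add_zero]
  have main : ∀ x y : Sˣ, x ∈ O → y ∈ O →
      ee y * ee x * ee y = (1 + (y : S)) * (ee x * ee y * ee x) := by
    intro x y hx hy
    have e1 : (1 + (y : S)) * ((1 + (y : S)) * ee x * ee y) = ee y * ee x * ee y := by
      rw [← mul_assoc, ← mul_assoc, hsq y]
    have e2 : (1 + (y : S)) * (ee y * ee x * (1 + (y : S))) = 0 := by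
      rw [← mul_assoc, ← mul_assoc, hkill y hy, zero_mul, zero_mul]
    have e3 : (1 + (y : S)) * (ee y * ee x * ee y) = 0 := by
      rw [← mul_assoc, ← mul_assoc, hkill y hy, zero_mul, zero_mul]
    have h4 : (1 + (y : S)) * ((1 + (y : S)) * ee x * ee y + ee y * ee x * (1 + (y : S))) =
        (1 + (y : S)) * (ee x * ee y * ee x + ee y * ee x * ee y) := by
      rw [two_k1 h2 h hx hy]
    rw [mul_add (1 + (y : S)) ((1 + (y : S)) * ee x * ee y) _,
      mul_add (1 + (y : S)) (ee x * ee y * ee x) _, e1, e2, e3, add_zero, add_zero] at h4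
    exact h4
  have hK' := main x y hx hy
  have hK'' := main y x hy hx
  -- commutation
  have hcomm : (1 + (y : S)) * (ee x * ee y * ee x) = (ee x * ee y * ee x) * (1 + (y : S)) := by
    have a1 := two_d h2 h hx hy
    have a2 := two_e h2 h hx hy
    have a3 : ee x * (y : S) * ee x * (1 + (y : S)) = (1 + (y : S)) * (ee x * (y : S) * ee x) := by
      rw [← a1, ← a2]
    rw [← hK, a2]
    calc (1 + (y : S)) * ((1 + (y : S)) * (ee x * (y : S) * ee x))
        = (1 + (y : S)) * (ee x * (y : S) * ee x * (1 + (y : S))) := by rw [a3]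
      _ = (1 + (y : S)) * (ee x * (y : S) * ee x) * (1 + (y : S)) := (mul_assoc _ _ _).symm
  rw [hK, hK'', hK', hcomm]
  have h5 : (1 + (x : S)) * (ee x * ee y * ee x * (1 + (y : S))) =
      ((1 + (x : S)) * ee x) * (ee y * ee x * (1 + (y : S))) := by
    simp only [mul_assoc]
  rw [h5, hkill x hx, zero_mul]

end Pool.Agent.Helper619.Split4
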