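import Pool.Agent.Helper619.Split4.Defs
import Pool.Agent.Helper619.Split4.G_basic
import Pool.Agent.Helper619.Split4.G_two_L2
import Pool.Agent.Helper619.Split4.G_two_k2

set_option autoImplicit false

namespace Pool.Agent.Helper619.Split4

/-- for even `g` (i.e. `g * x` and `x * g` odd) -/
theorem two_X {S : Type*} [Ring S] (h2 : (2 : S) = 0) {O : Set Sˣ} (h : OddSet O) {x g : Sˣ}
    (hx : x ∈ O) (hg : g * x ∈ O) (hg' : x * g ∈ O) :
    (g : S) * (ee x * (g : S) * ee x) = ee x * (g : S) * ee x ∧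
    ee x * (g : S) * ee x * (g : S) = ee x * (g : S) * ee x ∧
    ee x * ((g⁻¹ : Sˣ) : S) * ee x = ee x * (g : S) * ee x := by
  have xe := x_ee h hx
  have ex := ee_x h hx
  have xie : ((x⁻¹ : Sˣ) : S) * ee x = ee x := by
    calc ((x⁻¹ : Sˣ) : S) * ee x = ((x⁻¹ : Sˣ) : S) * ((x : S) * ee x) := by rw [xe]
      _ = ee x := by rw [← mul_assoc, Units.inv_mul, one_mul]
  have exi : ee x * ((x⁻¹ : Sˣ) : S) = ee x := by
    calc ee x * ((x⁻¹ : Sˣ) : S) = (ee x * (x : S)) * ((x⁻¹ : Sˣ) : S) := by rw [ex]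
      _ = ee x := by rw [mul_assoc, Units.mul_inv, mul_one]
  have hX1 : ee x * ((x * g : Sˣ) : S) * ee x = ee x * (g : S) * ee x := by
    rw [Units.val_mul, ← mul_assoc (ee x), ex]
  have hX2 : ee x * ((g * x : Sˣ) : S) * ee x = ee x * (g : S) * ee x := by
    rw [Units.val_mul, mul_assoc (ee x), mul_assoc (g : S), xe, ← mul_assoc]
  have hXx : ee x * (g : S) * ee x * (x : S) = ee x * (g : S) * ee x := by
    rw [mul_assoc (ee x * (g : S)), ex]
  have hv1 : ee x * (((x * g)⁻¹ : Sˣ) : S) * ee x = ee x * ((g⁻¹ : Sˣ) : S) * ee x := by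
    rw [mul_inv_rev, Units.val_mul, mul_assoc (ee x), mul_assoc ((g⁻¹ : Sˣ) : S), xie, ← mul_assoc]
  have hv2 : ee x * (((g * x)⁻¹ : Sˣ) : S) * ee x = ee x * ((g⁻¹ : Sˣ) : S) * ee x := by
    rw [mul_inv_rev, Units.val_mul, ← mul_assoc (ee x), exi]
  have hXg : ee x * (g : S) * ee x * ((x * g : Sˣ) : S) = ee x * (g : S) * ee x * (g : S) := by
    rw [Units.val_mul, ← mul_assoc (ee x * (g : S) * ee x), hXx]
  have hb := two_b h2 h hx hg'
  rw [hX1, hXg, hv1] at hb
  have hc := two_c h2 h hx hg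
  rw [hX2, hv2, Units.val_mul] at hc
  have hc2 : (g : S) * (x : S) * (ee x * (g : S) * ee x) = (g : S) * (ee x * (g : S) * ee x) := by
    calc (g : S) * (x : S) * (ee x * (g : S) * ee x)
        = (g : S) * (((x : S) * ee x) * (g : S) * ee x) := by simp only [mul_assoc]
      _ = _ := by rw [xe]
  rw [hc2] at hc
  have hd := two_d h2 h hx hg'
  rw [two_k2 h2 h hx hg', hX1, mul_add, mul_one, hXg] at hd
  have hneg : ∀ a : S, a + a = 0 := by
    intro a
    have : a + a = 2 * a := (two_mul a).symm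
    rw [this, h2, zero_mul]
  have hkey : ee x * (g : S) * ee x * (g : S) = ee x * (g : S) * ee x := by
    have h3 := hneg (ee x * (g : S) * ee x)
    have h4 : ee x * (g : S) * ee x + ee x * (g : S) * ee x * (g : S) =
      ee x * (g : S) * ee x + ee x * (g : S) * ee x := by rw [← hd, h3]
    exact add_left_cancel h4
  refine ⟨?_, hkey, ?_⟩
  · rw [hc, ← hb, hkey]
  · rw [← hb, hkey]

end Pool.Agent.Helper619.Split4
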