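import Pool.Agent.Helper619.Split4.Defs
import Pool.Agent.Helper619.Split4.G_basic
import Pool.Agent.Helper619.Split4.G_clos_or
import Pool.Agent.Helper619.Split4.G_two_L2
import Pool.Agent.Helper619.Split4.G_two_X
import Pool.Agent.Helper619.Split4.G_two_k2

set_option autoImplicit false

namespace Pool.Agent.Helper619.Split4

private theorem two_main_even {S : Type*} [Ring S] (h2 : (2 : S) = 0) {O : Set Sˣ} (h : OddSet O)
    {x g k : Sˣ} (hx : x ∈ O) (hg : g * x ∈ O) (hg' : x * g ∈ O) (hk : k * x ∈ O)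
    (hk' : x * k ∈ O) :
    ee x * (g : S) * ee x * (k : S) * ee x = 0 := by
  have hdbl : ∀ a : S, a + a = 0 := by
    intro a
    rw [← two_mul, h2, zero_mul]
  have mulev : ∀ a b : Sˣ, (a * x ∈ O ∧ x * a ∈ O) → (b * x ∈ O ∧ x * b ∈ O) →
      (a * b * x ∈ O ∧ x * (a * b) ∈ O) := by
    intro a b ha hb
    constructor
    · have := h.mul3 _ ha.1 _ (h.inv _ hx) _ hb.1
      have e : a * x * x⁻¹ * (b * x) = a * b * x := by group
      rwa [e] at this
    · have := h.mul3 _ ha.2 _ (h.inv _ hx) _ hb.2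
      have e : x * a * x⁻¹ * (x * b) = x * (a * b) := by group
      rwa [e] at this
  have invev : ∀ a : Sˣ, (a * x ∈ O ∧ x * a ∈ O) → (a⁻¹ * x ∈ O ∧ x * a⁻¹ ∈ O) := by
    intro a ha
    constructor
    · have := h.mul3 _ (h.inv _ ha.2) _ hx _ hx
      have e : (x * a)⁻¹ * x * x = a⁻¹ * x := by group
      rwa [e] at this
    · have := h.mul3 _ hx _ hx _ (h.inv _ ha.1)
      have e : x * x * (a * x)⁻¹ = x * a⁻¹ := by group
      rwa [e] at this
  have tev : (x * x) * x ∈ O ∧ x * (x * x) ∈ O := by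
    have := h.mul3 _ hx _ hx _ hx
    refine ⟨this, ?_⟩
    rwa [← mul_assoc]
  have hx4 : x * x * (x * x) = 1 := by
    have := pow4 h hx
    rw [← this, pow_succ, pow_succ, pow_succ, pow_one]
    simp only [mul_assoc]
  have tinv : (x * x)⁻¹ = x * x := inv_eq_of_mul_eq_one_right hx4
  have gev : g * x ∈ O ∧ x * g ∈ O := ⟨hg, hg'⟩
  have kev : k * x ∈ O ∧ x * k ∈ O := ⟨hk, hk'⟩
  set e : S := ee x with he
  set G : S := (g : S) with hG
  set K : S := (k : S) with hK
  have ext : e * (x : S) = e := ee_x h hx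
  have et : e * ((x : S) * (x : S)) = e := by rw [← mul_assoc, ext, ext]
  have hone : 1 + (x : S) * (x : S) = e := by rw [he]; unfold ee; rw [pow_two]
  -- (2)
  have Y2 : ∀ a b : Sˣ, e * (a : S) * e * (b : S) * e =
      e * ((a * b : Sˣ) : S) * e + e * ((a * (x * x) * b : Sˣ) : S) * e := by
    intro a b
    calc e * (a : S) * e * (b : S) * e = e * (a : S) * (1 + (x : S) * (x : S)) * (b : S) * e := by
          rw [hone]
      _ = _ := by
          simp only [Units.val_mul]
          noncomm_ring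
  -- (3)
  have Y3 : ∀ a b : Sˣ, (a * x ∈ O ∧ x * a ∈ O) → (b * x ∈ O ∧ x * b ∈ O) →
      e * (a : S) * e * (b : S) * e = e * (b : S) * e * (a : S) * e := by
    intro a b ha hb
    have hab := mulev a b ha hb
    have hatb := mulev (a * (x * x)) b (mulev a (x * x) ha tev) hb
    have i1 := (two_X h2 h hx hab.1 hab.2).2.2
    have i2 := (two_X h2 h hx hatb.1 hatb.2).2.2
    have ia := (two_X h2 h hx ha.1 ha.2).2.2
    have ib := (two_X h2 h hx hb.1 hb.2).2.2
    rw [← he] at i1 i2 ia ib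
    have u1 : (a * b)⁻¹ = b⁻¹ * a⁻¹ := mul_inv_rev a b
    have u2 : (a * (x * x) * b)⁻¹ = b⁻¹ * (x * x) * a⁻¹ := by
      rw [mul_inv_rev, mul_inv_rev a (x * x), tinv]
      simp only [mul_assoc]
    rw [Y2 a b, ← i1, ← i2, u1, u2, ← Y2 b⁻¹ a⁻¹]
    calc e * ((b⁻¹ : Sˣ) : S) * e * ((a⁻¹ : Sˣ) : S) * e
        = (e * (b : S) * e) * ((a⁻¹ : Sˣ) : S) * e := by rw [ib]
      _ = e * (b : S) * (e * ((a⁻¹ : Sˣ) : S) * e) := by simp only [mul_assoc]
      _ = e * (b : S) * e * (a : S) * e := by rw [ia]; simp only [mul_assoc]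
  obtain ⟨g1, g2, g3⟩ := two_X h2 h hx hg hg'
  obtain ⟨k1, k2, k3⟩ := two_X h2 h hx hk hk'
  rw [← he, ← hG] at g1 g2 g3
  rw [← he, ← hK] at k1 k2 k3
  set Y : S := e * G * e * K * e with hY
  have gY : G * Y = Y := by
    rw [hY]
    calc G * (e * G * e * K * e) = (G * (e * G * e)) * K * e := by simp only [mul_assoc]
      _ = _ := by rw [g1]
  have Ysym : Y = e * K * e * G * e := Y3 g k gev kev
  have kY : K * Y = Y := by
    rw [Ysym]
    calc K * (e * K * e * G * e) = (K * (e * K * e)) * G * e := by simp only [mul_assoc]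
      _ = _ := by rw [k1]
  have gkY : G * K * Y = Y := by rw [mul_assoc, kY, gY]
  -- (4)
  have hgk := mulev g k gev kev
  have hk0 := mulev (g * (x * x)) k (mulev g (x * x) gev tev) kev
  have p1 := (two_X h2 h hx hgk.1 hgk.2).1
  have p2 := (two_X h2 h hx hk0.1 hk0.2).1
  rw [← he] at p1 p2
  have hY2 := Y2 g k
  set Z : S := e * ((g * (x * x) * k : Sˣ) : S) * e with hZ
  set W : S := e * ((g * k : Sˣ) : S) * e with hW
  have hZ1 : Z = W + Y := by
    have : Y = W + Z := hY2
    rw [this, ← add_assoc, hdbl, zero_add]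
  have hval : ((g * (x * x) * k : Sˣ) : S) = G * K + G * e * K := by
    rw [← hone]
    simp only [Units.val_mul]
    have : G * K + G * (1 + (x : S) * (x : S)) * K =
        (G * K + G * K) + G * ((x : S) * (x : S)) * K := by noncomm_ring
    rw [this, hdbl, zero_add]
  have hval2 : ((g * k : Sˣ) : S) = G * K := Units.val_mul _ _
  have q1 : G * K * Z = Z := by
    have hW1 : G * K * W = W := by
      rw [← hval2]; exact p1
    rw [hZ1, mul_add, gkY, hW1]
  have q2 : G * e * K * Z = 0 := by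
    rw [hval] at p2
    have : G * K * Z + G * e * K * Z = Z := by
      rw [← add_mul]; exact p2
    rw [q1] at this
    simpa using this
  have q3 : e * K * Z = 0 := by
    have : ((g⁻¹ : Sˣ) : S) * (G * e * K * Z) = e * K * Z := by
      rw [hG]
      simp only [mul_assoc]
      rw [Units.inv_mul_cancel_left]
    rw [← this, q2, mul_zero]
  -- (5)
  have q4 : e * ((g⁻¹ : Sˣ) : S) * Z = 0 := by
    have r1 : e * ((g⁻¹ : Sˣ) : S) * Z = e * ((g⁻¹ : Sˣ) : S) *
        (((g * (x * x) * k : Sˣ) : S) * Z) := by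
      have : ((g * (x * x) * k : Sˣ) : S) * Z = Z := p2
      rw [this]
    rw [r1]
    have r2 : e * ((g⁻¹ : Sˣ) : S) * (((g * (x * x) * k : Sˣ) : S) * Z) =
        e * ((x : S) * (x : S)) * (K * Z) := by
      simp only [Units.val_mul, mul_assoc]
      rw [Units.inv_mul_cancel_left]
    rw [r2, et, ← mul_assoc, q3]
  have q5 : e * ((g⁻¹ : Sˣ) : S) * Z = Y := by
    calc e * ((g⁻¹ : Sˣ) : S) * Z
        = (e * ((g⁻¹ : Sˣ) : S) * e) * (G * ((x : S) * (x : S)) * K) * e := by
          rw [hZ]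
          simp only [Units.val_mul, mul_assoc]
          rfl
      _ = (e * G * e) * (G * ((x : S) * (x : S)) * K) * e := by rw [g3]
      _ = (e * G * e * G) * ((x : S) * (x : S)) * K * e := by simp only [mul_assoc]
      _ = (e * G * e) * ((x : S) * (x : S)) * K * e := by rw [g2]
      _ = e * G * (e * ((x : S) * (x : S))) * K * e := by simp only [mul_assoc]
      _ = Y := by rw [et]
  rw [← q5, q4]

private theorem two_main_red {S : Type*} [Ring S] {O : Set Sˣ} (h : OddSet O)
    {x g : Sˣ} (hx : x ∈ O) (hg : g ∈ Subgroup.closure O) :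
    ∃ g' : Sˣ, g' * x ∈ O ∧ x * g' ∈ O ∧ ee x * (g : S) * ee x = ee x * (g' : S) * ee x := by
  rcases clos_or h hx hg with h1 | h1
  · refine ⟨x⁻¹ * g, h.mul3 _ (h.inv _ hx) _ h1 _ hx, ?_, ?_⟩
    · rw [mul_inv_cancel_left]; exact h1
    · have e : (g : S) = (x : S) * ((x⁻¹ * g : Sˣ) : S) := by
        rw [← Units.val_mul, mul_inv_cancel_left]
      conv_lhs => rw [e]
      rw [← mul_assoc (ee x), ee_x h hx]
  · exact ⟨g, h1.1, h1.2, rfl⟩


theorem two_main {S : Type*} [Ring S] (h2 : (2 : S) = 0) {O : Set Sˣ} (h : OddSet O)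
    {x g k : Sˣ} (hx : x ∈ O) (hg : g ∈ Subgroup.closure O) (hk : k ∈ Subgroup.closure O) :
    ee x * (g : S) * ee x * (k : S) * ee x = 0 := by
  obtain ⟨g', a1, a2, a3⟩ := two_main_red h hx hg
  obtain ⟨k', b1, b2, b3⟩ := two_main_red h hx hk
  rw [a3]
  calc ee x * (g' : S) * ee x * (k : S) * ee x
      = ee x * (g' : S) * (ee x * (k : S) * ee x) := by simp only [mul_assoc]
    _ = ee x * (g' : S) * (ee x * (k' : S) * ee x) := by rw [b3]
    _ = ee x * (g' : S) * ee x * (k' : S) * ee x := by simp only [mul_assoc]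
    _ = 0 := two_main_even h2 h hx a1 a2 b1 b2

end Pool.Agent.Helper619.Split4
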