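import Pool.Agent.Helper619.Split4.Defs
import Pool.Agent.Helper619.Split4.G_MM
import Pool.Agent.Helper619.Split4.G_basic
import Pool.Agent.Helper619.Split4.G_two_main

set_option autoImplicit false

namespace Pool.Agent.Helper619.Split4

/-- auxiliary: the subring with elements `MO O` -/
private def R0tl {R : Type*} [Ring R] (O : Set Rˣ) : Subring R where
  carrier := MO O
  mul_mem' := fun ha hb => by
    have := Submodule.mul_mem_mul ha hb
    rwa [MO_mul_MO] at this
  one_mem' := one_le_MO O (Submodule.one_le.mp le_rfl)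
  add_mem' := fun ha hb => (MO O).add_mem ha hb
  zero_mem' := (MO O).zero_mem
  neg_mem' := fun ha => (MO O).neg_mem ha

private theorem two_sided_tl {A : Type*} [Ring A] : (Ideal.span {(2 : A)}).IsTwoSided := by
  refine ⟨fun {a} b ha => ?_⟩
  rw [Ideal.mem_span_singleton'] at ha ⊢
  obtain ⟨c, rfl⟩ := ha
  refine ⟨c * b, ?_⟩
  rw [mul_assoc, mul_assoc, (Commute.ofNat_left 2 b).eq]

/-- auxiliary: inclusion of the group into the subring -/
private def inc_tl {R : Type*} [Ring R] (O : Set Rˣ) : Subgroup.closure O →* R0tl O where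
  toFun h := ⟨((h : Rˣ) : R), Submodule.subset_span ⟨h, h.2, rfl⟩⟩
  map_one' := by
    apply Subtype.ext
    simp
  map_mul' a b := by
    apply Subtype.ext
    simp

theorem two_lift {R : Type*} [Ring R] {O : Set Rˣ} (h : OddSet O)
    {x g k : Rˣ} (hx : x ∈ O) (hg : g ∈ Subgroup.closure O) (hk : k ∈ Subgroup.closure O) :
    ∃ r ∈ MO O, ee x * (g : R) * ee x * (k : R) * ee x = 2 * r := by
  let I : Ideal (R0tl O) := Ideal.span {(2 : R0tl O)}
  have : I.IsTwoSided := two_sided_tl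
  let q : R0tl O →+* (R0tl O ⧸ I) := Ideal.Quotient.mk I
  let psi : Subgroup.closure O →* (R0tl O ⧸ I)ˣ :=
    (((q : R0tl O →* (R0tl O ⧸ I))).comp (inc_tl O)).toHomUnits
  have hpsi : ∀ a : Subgroup.closure O, ((psi a : (R0tl O ⧸ I)ˣ) : R0tl O ⧸ I) = q (inc_tl O a) :=
    fun a => rfl
  let P : Set (Subgroup.closure O) := {a | (a : Rˣ) ∈ O}
  let O' : Set (R0tl O ⧸ I)ˣ := psi '' P
  have hO' : OddSet O' := by
    refine ⟨?_, ?_, ?_⟩
    · rintro _ ⟨a, ha, rfl⟩ _ ⟨b, hb, rfl⟩ _ ⟨c, hc, rfl⟩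
      exact ⟨a * b * c, h.mul3 _ ha _ hb _ hc, by rw [map_mul, map_mul]⟩
    · rintro _ ⟨a, ha, rfl⟩
      exact ⟨a⁻¹, h.inv _ ha, by rw [map_inv]⟩
    · rintro _ ⟨a, ha, rfl⟩
      have h5 : inc_tl O a + inc_tl O a⁻¹ = 1 + (inc_tl O a) ^ 2 := by
        apply Subtype.ext
        exact h.rel _ ha
      have h6 := congrArg q h5
      rw [map_add, map_add, map_one, map_pow] at h6
      rw [← map_inv, hpsi, hpsi]
      exact h6
  have hcl : ∀ a : Subgroup.closure O, psi a ∈ Subgroup.closure O' := by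
    intro a
    have h1 : Subgroup.closure P = ⊤ := Subgroup.closure_closure_coe_preimage
    have h2 : (Subgroup.closure P).map psi = Subgroup.closure O' := MonoidHom.map_closure psi P
    rw [← h2, h1]
    exact ⟨a, trivial, rfl⟩
  have h2S : (2 : R0tl O ⧸ I) = 0 := by
    have h3 : q 2 = 0 := Ideal.Quotient.eq_zero_iff_mem.mpr
      (Ideal.subset_span (Set.mem_singleton _))
    rw [← h3, map_ofNat]
  let X : Subgroup.closure O := ⟨x, Subgroup.subset_closure hx⟩
  let G : Subgroup.closure O := ⟨g, hg⟩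
  let K : Subgroup.closure O := ⟨k, hk⟩
  have hm := two_main h2S hO' (x := psi X) (g := psi G) (k := psi K) ⟨X, hx, rfl⟩ (hcl G) (hcl K)
  have he : ee (psi X) = q (1 + (inc_tl O X) ^ 2) := by
    unfold ee
    rw [hpsi, map_add, map_one, map_pow]
  rw [he, hpsi, hpsi, ← map_mul, ← map_mul, ← map_mul, ← map_mul] at hm
  have hmem := Ideal.Quotient.eq_zero_iff_mem.mp hm
  obtain ⟨a, ha⟩ := Ideal.mem_span_singleton'.mp hmem
  refine ⟨(a : R), a.2, ?_⟩
  have h4 := congrArg (Subtype.val : R0tl O → R) ha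
  rw [(Commute.ofNat_left 2 (a : R)).eq]
  exact h4.symm

end Pool.Agent.Helper619.Split4
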