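import Pool.Agent.Helper619.Split4.Defs
import Pool.Agent.Helper619.Split4.G_MM
import Pool.Agent.Helper619.Split4.G_basic
import Pool.Agent.Helper619.Split4.G_clos_or
import Pool.Agent.Helper619.Split4.G_fixall
import Pool.Agent.Helper619.Split4.G_two_lift
import Pool.Agent.Helper619.Split4.G_two_main
import Pool.Agent.Helper619.Split4.Key

set_option autoImplicit false

namespace Pool.Agent.Helper619.Split4

open scoped Pointwise in
theorem EMEME {R : Type*} [Ring R] {O : Set Rˣ} (h : OddSet O) {x : Rˣ} (hx : x ∈ O) :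
    ln (ee x) * MO O * ln (ee x) * MO O * ln (ee x) ≤ ln (2 : R) * MO O := by
  have e1 : ln (ee x) * MO O * ln (ee x) * MO O * ln (ee x) =
      Submodule.span ℤ ((({ee x} : Set R) * {r | ∃ g ∈ Subgroup.closure O, r = ((g : Rˣ) : R)} *
        {ee x} * {r | ∃ g ∈ Subgroup.closure O, r = ((g : Rˣ) : R)}) * {ee x}) := by
    unfold ln MO
    simp only [Submodule.span_mul_span]
  rw [e1, Submodule.span_le]
  rintro y hy
  obtain ⟨y1, hy1, y2, hy2, rfl⟩ := Set.mem_mul.1 hy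
  obtain ⟨y3, hy3, y4, ⟨k, hk, rfl⟩, rfl⟩ := Set.mem_mul.1 hy1
  obtain ⟨y5, hy5, y6, hy6, rfl⟩ := Set.mem_mul.1 hy3
  obtain ⟨y7, hy7, y8, ⟨g, hg, rfl⟩, rfl⟩ := Set.mem_mul.1 hy5
  rw [Set.mem_singleton_iff] at hy2 hy6 hy7
  subst hy2 hy6 hy7
  obtain ⟨r, hr, hrr⟩ := two_lift h hx hg hk
  rw [hrr]
  exact Submodule.mul_mem_mul (Submodule.mem_span_singleton_self _) hr

open scoped Pointwise in
theorem DEDE {R : Type*} [Ring R] {O : Set Rˣ} (h : OddSet O) (h3 : ∀ r : R, 3 * r = 0 → r = 0)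
    {x : Rˣ} (hx : x ∈ O) :
    ln (2 : R) ^ 4 * DO O * (ln (ee x) * DO O * ln (ee x)) = ⊥ := by
  have e1 : ln (2 : R) ^ 4 * DO O * (ln (ee x) * DO O * ln (ee x)) =
      Submodule.span ℤ ((({(2 : R)} : Set R) ^ 4 * {r | ∃ g ∈ Subgroup.closure O,
        ∃ h ∈ Subgroup.closure O, r = ((g : Rˣ) : R) - ((h : Rˣ) : R)}) *
        (({ee x} : Set R) * {r | ∃ g ∈ Subgroup.closure O,
        ∃ h ∈ Subgroup.closure O, r = ((g : Rˣ) : R) - ((h : Rˣ) : R)} * {ee x})) := by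
    unfold ln DO
    simp only [Submodule.span_mul_span, Submodule.span_pow]
  have key : ∀ g ∈ Subgroup.closure O, ∀ w ∈ Subgroup.closure O,
      16 * (((g : R) - 1) * (ee x * ((w : R) - 1) * ee x)) = 0 := by
    intro g hg w hw
    apply h3
    have := fixall h hx hg hw
    rw [← this]
    rw [← mul_assoc]
    congr 1
    norm_num
  rw [e1, Submodule.span_eq_bot]
  rintro y hy
  obtain ⟨y1, hy1, y2, hy2, rfl⟩ := Set.mem_mul.1 hy
  obtain ⟨y3, hy3, y4, ⟨g, hg, g', hg', rfl⟩, rfl⟩ := Set.mem_mul.1 hy1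
  obtain ⟨y5, hy5, y6, hy6, rfl⟩ := Set.mem_mul.1 hy2
  obtain ⟨y7, hy7, y8, ⟨w, hw, w', hw', rfl⟩, rfl⟩ := Set.mem_mul.1 hy5
  rw [Set.mem_singleton_iff] at hy6 hy7
  rw [Set.singleton_pow, Set.mem_singleton_iff] at hy3
  subst hy6 hy7 hy3
  have k1 := key g hg w hw
  have k2 := key g hg w' hw'
  have k3 := key g' hg' w hw
  have k4 := key g' hg' w' hw'
  have e2 : (2 : R) ^ 4 * (((g : Rˣ) : R) - ((g' : Rˣ) : R)) *
      (ee x * (((w : Rˣ) : R) - ((w' : Rˣ) : R)) * ee x) =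
      16 * (((g : R) - 1) * (ee x * ((w : R) - 1) * ee x)) -
      16 * (((g : R) - 1) * (ee x * ((w' : R) - 1) * ee x)) -
      16 * (((g' : R) - 1) * (ee x * ((w : R) - 1) * ee x)) +
      16 * (((g' : R) - 1) * (ee x * ((w' : R) - 1) * ee x)) := by
    have : (2 : R) ^ 4 = 16 := by norm_num
    rw [this]
    noncomm_ring
  rw [e2, k1, k2, k3, k4]
  simp

end Pool.Agent.Helper619.Split4
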