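import Pool.Agent.Helper619.Split4.Defs
import Pool.Agent.Helper619.Split4.G_MM
import Pool.Agent.Helper619.Split4.G_sand

set_option autoImplicit false

namespace Pool.Agent.Helper619.Split4

theorem nilJ {R : Type*} [Ring R] {O : Set Rˣ} (h : OddSet O) (h3 : ∀ r : R, 3 * r = 0 → r = 0)
    {x : Rˣ} (hx : x ∈ O) : (JO O x * DO O) ^ 14 = ⊥ := by
  have hMD : MO O * DO O = DO O := MO_mul_DO O
  have hDM : DO O * MO O = DO O := DO_mul_MO O
  have hDleM : DO O ≤ MO O := DO_le_MO O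
  have hT : Commute (ln (2 : R)) (DO O) := ln_two_comm _
  have hE3 := EMEME h hx
  have hDE := DEDE h h3 hx
  have hJ : JO O x = MO O * ln (ee x) * MO O := rfl
  obtain ⟨M, hM⟩ : ∃ M, M = MO O := ⟨_, rfl⟩
  obtain ⟨D, hD⟩ : ∃ D, D = DO O := ⟨_, rfl⟩
  obtain ⟨E, hE⟩ : ∃ E, E = ln (ee x) := ⟨_, rfl⟩
  obtain ⟨T, hT'⟩ : ∃ T, T = ln (2 : R) := ⟨_, rfl⟩
  rw [hJ]
  rw [← hM, ← hD] at hMD hDM hDleM
  rw [← hT', ← hD] at hT
  rw [← hE, ← hM, ← hT'] at hE3
  rw [← hE, ← hD, ← hT'] at hDE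
  rw [← hM, ← hE, ← hD]
  clear hM hD hE hT' hJ
  have hJD : M * E * M * D = M * (E * D) := by
    rw [mul_assoc (M * E) M D, hMD, mul_assoc]
  have hEDM : ∀ n : ℕ, (E * D) ^ (n + 1) * M = (E * D) ^ (n + 1) := fun n => by
    rw [pow_succ, mul_assoc, mul_assoc E D M, hDM]
  have hpow : ∀ n : ℕ, (M * (E * D)) ^ (n + 1) = M * (E * D) ^ (n + 1) := by
    intro n
    induction n with
    | zero => rw [zero_add, pow_one, pow_one]
    | succ n ih =>
      rw [pow_succ (M * (E * D)) (n + 1), ih, mul_assoc, ← mul_assoc ((E * D) ^ (n + 1)) M (E * D),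
        hEDM, ← pow_succ]
  have hDD : D * D ≤ D := (mul_le_mul' hDleM le_rfl).trans hMD.le
  have h3' : (E * D) ^ 3 ≤ T * D := by
    have e1 : (E * D) ^ 3 = E * D * E * D * E * D := by
      rw [pow_succ, pow_two]
      simp only [mul_assoc]
    rw [e1]
    have e2 : E * D * E * D * E ≤ E * M * E * M * E := by
      gcongr
    calc E * D * E * D * E * D ≤ E * M * E * M * E * D := by gcongr
      _ ≤ T * M * D := by gcongr
      _ = T * D := by rw [mul_assoc, hMD]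
  have hD4 : D ^ 4 ≤ D := by
    have e1 : D ^ 4 = D * D * (D * D) := by
      rw [pow_succ, pow_succ, pow_two, mul_assoc]
    rw [e1]
    exact (mul_le_mul' hDD hDD).trans hDD
  have h12 : (E * D) ^ 12 ≤ T ^ 4 * D := by
    rw [show 12 = 3 * 4 by norm_num, pow_mul]
    calc ((E * D) ^ 3) ^ 4 ≤ (T * D) ^ 4 := by gcongr
      _ = T ^ 4 * D ^ 4 := hT.mul_pow 4
      _ ≤ T ^ 4 * D := by gcongr
  have h14 : (E * D) ^ 14 = ⊥ := by
    rw [eq_bot_iff, show 14 = 12 + 2 by norm_num, pow_add]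
    calc (E * D) ^ 12 * (E * D) ^ 2 ≤ T ^ 4 * D * (E * D) ^ 2 := by gcongr
      _ = T ^ 4 * D * (E * D * E) * D := by
        rw [pow_two]
        simp only [mul_assoc]
      _ = ⊥ := by rw [hDE, Submodule.bot_mul]
  rw [hJD, show 14 = 13 + 1 by norm_num, hpow, h14, Submodule.mul_bot]

end Pool.Agent.Helper619.Split4
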