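import Pool.Agent.Helper619.Split4.Defs

set_option autoImplicit false

namespace Pool.Agent.Helper619.Split4

theorem nilsum {R : Type*} [Ring R] (M : Submodule ℤ R) {α : Type*} (F : Finset α)
    (I : α → Submodule ℤ R) (c : ℕ) (hc : 1 ≤ c) (hIM : ∀ i ∈ F, I i ≤ M)
    (h1 : ∀ i ∈ F, M * I i ≤ I i) (h2 : ∀ i ∈ F, I i * M ≤ I i) (hn : ∀ i ∈ F, I i ^ c = ⊥) :
    (F.sup I) ^ (c ^ F.card) = ⊥ := by 
  classical
  have main : ∀ F : Finset α, (∀ i ∈ F, I i ≤ M) → (∀ i ∈ F, M * I i ≤ I i) →
      (∀ i ∈ F, I i * M ≤ I i) → (∀ i ∈ F, I i ^ c = ⊥) →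
      (F.sup I ≤ M ∧ M * F.sup I ≤ F.sup I ∧ F.sup I * M ≤ F.sup I ∧
        (F.sup I) ^ (c ^ F.card) = ⊥) := by
    intro F
    induction F using Finset.induction_on with
    | empty =>
      intro _ _ _ _
      simp
    | insert a F ha ih =>
      intro g1 g2 g3 g4
      obtain ⟨k1, k2, k3, k4⟩ := ih (fun i hi => g1 i (Finset.mem_insert_of_mem hi))
        (fun i hi => g2 i (Finset.mem_insert_of_mem hi))
        (fun i hi => g3 i (Finset.mem_insert_of_mem hi))
        (fun i hi => g4 i (Finset.mem_insert_of_mem hi))
      have a1 := g1 a (Finset.mem_insert_self a F)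
      have a2 := g2 a (Finset.mem_insert_self a F)
      have a3 := g3 a (Finset.mem_insert_self a F)
      have a4 := g4 a (Finset.mem_insert_self a F)
      rw [Finset.sup_insert, Finset.card_insert_of_notMem ha]
      set A := I a with hA
      set J := F.sup I with hJ
      refine ⟨sup_le a1 k1, ?_, ?_, ?_⟩
      · rw [Submodule.mul_sup]
        exact sup_le_sup a2 k2
      · rw [Submodule.sup_mul]
        exact sup_le_sup a3 k3
      · have hAJ : ∀ n : ℕ, A ^ n * J ≤ J := by
          intro n
          induction n with
          | zero => simp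
          | succ n ihn =>
            rw [pow_succ, mul_assoc]
            exact le_trans (mul_le_mul' le_rfl
              (le_trans (mul_le_mul' a1 le_rfl) k2)) ihn
        have hpow : ∀ n : ℕ, (A ⊔ J) ^ n ≤ A ^ n ⊔ J := by
          intro n
          induction n with
          | zero => simp
          | succ n ihn =>
            rw [pow_succ]
            refine le_trans (mul_le_mul' ihn le_rfl) ?_
            rw [Submodule.mul_sup, Submodule.sup_mul, Submodule.sup_mul, ← pow_succ]
            refine sup_le (sup_le le_sup_left ?_) (sup_le ?_ ?_)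
            · exact le_trans (le_trans (mul_le_mul' le_rfl a1) k3) le_sup_right
            · exact le_trans (hAJ n) le_sup_right
            · exact le_trans (le_trans (mul_le_mul' le_rfl k1) k3) le_sup_right
        have hc1 : (A ⊔ J) ^ c ≤ J := by
          have := hpow c
          rw [a4, bot_sup_eq] at this
          exact this
        have hmono : ∀ n : ℕ, ((A ⊔ J) ^ c) ^ n ≤ J ^ n := by
          intro n
          induction n with
          | zero => simp
          | succ n ihn =>
            rw [pow_succ, pow_succ]
            exact mul_le_mul' ihn hc1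
        rw [pow_succ, mul_comm, pow_mul]
        exact le_bot_iff.mp (le_trans (hmono _) (le_of_eq k4))
  exact (main F hIM h1 h2 hn).2.2.2

end Pool.Agent.Helper619.Split4
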