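import Pool.Agent.Helper619.Split4.Defs
import Pool.Agent.Helper619.Split4.G_MM

set_option autoImplicit false

namespace Pool.Agent.Helper619.Split4

private theorem pser_mem {R : Type*} [Ring R] {O : Set Rˣ} {g : Rˣ} (hg : g ∈ Subgroup.closure O) :
    ((g : Rˣ) : R) ∈ MO O := Submodule.subset_span ⟨g, hg, rfl⟩

/-- congruence subgroup -/
private def pserQ {R : Type*} [Ring R] (O : Set Rˣ) (F : Submodule ℤ R) (h1 : MO O * F ≤ F)
    (h2 : F * MO O ≤ F) : Subgroup Rˣ where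
  carrier := {p | p ∈ Subgroup.closure O ∧ (p : R) - 1 ∈ F}
  mul_mem' := by
    rintro a b ⟨ha, ha'⟩ ⟨hb, hb'⟩
    refine ⟨mul_mem ha hb, ?_⟩
    have e : ((a * b : Rˣ) : R) - 1 = ((a : R) - 1) * b + ((b : R) - 1) := by
      rw [Units.val_mul]
      noncomm_ring
    rw [e]
    exact add_mem (h2 (Submodule.mul_mem_mul ha' (pser_mem hb))) hb'
  one_mem' := ⟨one_mem _, by rw [Units.val_one, sub_self]; exact zero_mem _⟩
  inv_mem' := by
    rintro a ⟨ha, ha'⟩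
    refine ⟨inv_mem ha, ?_⟩
    have e : ((a⁻¹ : Rˣ) : R) - 1 = -(((a⁻¹ : Rˣ) : R) * ((a : R) - 1)) := by
      rw [mul_sub, mul_one, Units.inv_mul]
      abel
    rw [e]
    exact neg_mem (h1 (Submodule.mul_mem_mul (pser_mem (inv_mem ha)) ha'))

private theorem pser_pow {R : Type*} [Ring R] {O : Set Rˣ} {D : Submodule ℤ R} (h1 : MO O * D ≤ D)
    (h2 : D * MO O ≤ D) (n : ℕ) (hn : 0 < n) : MO O * D ^ n ≤ D ^ n ∧ D ^ n * MO O ≤ D ^ n := by
  obtain ⟨m, rfl⟩ : ∃ m, n = m + 1 := ⟨n - 1, by omega⟩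
  constructor
  · rw [pow_succ', ← mul_assoc]
    exact mul_le_mul' h1 le_rfl
  · rw [pow_succ, mul_assoc]
    exact mul_le_mul' le_rfl h2

open scoped commutatorElement in
private theorem pser_main {R : Type*} [Ring R] {O : Set Rˣ} (G₀ : Subgroup Rˣ)
    (hG : G₀ ≤ Subgroup.closure O) (D : Submodule ℤ R) (h1 : MO O * D ≤ D)
    (h2 : D * MO O ≤ D) (h3 : ∀ c ∈ ⁅G₀, G₀⁆, (c : R) - 1 ∈ D) (j : ℕ) :
    ∀ p ∈ Pser G₀ (j + 1), p ∈ Subgroup.closure O ∧ (p : R) - 1 ∈ D ^ (2 ^ j) := by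
  induction j with
  | zero =>
    intro p hp
    have hp' : p ∈ ⁅G₀, G₀⁆ := hp
    rw [pow_zero, pow_one]
    refine ⟨?_, h3 p hp'⟩
    have : ⁅G₀, G₀⁆ ≤ Subgroup.closure O := by
      rw [Subgroup.commutator_le]
      intro a ha b hb
      rw [commutatorElement_def]
      exact mul_mem (mul_mem (mul_mem (hG ha) (hG hb)) (inv_mem (hG ha))) (inv_mem (hG hb))
    exact this hp'
  | succ j ih =>
    have hpos : 0 < 2 ^ j := by positivity
    have hpos' : 0 < 2 ^ (j + 1) := by positivity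
    obtain ⟨k1, k2⟩ := pser_pow h1 h2 (2 ^ (j + 1)) hpos'
    have hle : Pser G₀ (j + 1 + 1) ≤ pserQ O (D ^ (2 ^ (j + 1))) k1 k2 := by
      show ⁅Pser G₀ (j + 1), Pser G₀ (j + 1)⁆ ≤ _
      rw [Subgroup.commutator_le]
      intro a ha b hb
      obtain ⟨ha1, ha2⟩ := ih a ha
      obtain ⟨hb1, hb2⟩ := ih b hb
      rw [commutatorElement_def]
      refine ⟨mul_mem (mul_mem (mul_mem ha1 hb1) (inv_mem ha1)) (inv_mem hb1), ?_⟩
      have e1 : ((a * b * a⁻¹ * b⁻¹ : Rˣ) : R) - 1 =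
          (((a : R) - 1) * ((b : R) - 1) - ((b : R) - 1) * ((a : R) - 1)) *
            ((a⁻¹ * b⁻¹ : Rˣ) : R) := by
        have e2 : ((a : R) - 1) * ((b : R) - 1) - ((b : R) - 1) * ((a : R) - 1) =
            (a : R) * b - b * a := by noncomm_ring
        have e3 : (b : R) * a * ((a⁻¹ * b⁻¹ : Rˣ) : R) = 1 := by
          rw [← Units.val_mul, ← Units.val_mul, show b * a * (a⁻¹ * b⁻¹) = 1 by group,
            Units.val_one]
        rw [e2, sub_mul, e3, ← Units.val_mul, ← Units.val_mul]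
        congr 2
        group
      rw [e1]
      apply k2
      refine Submodule.mul_mem_mul ?_ (pser_mem (mul_mem (inv_mem ha1) (inv_mem hb1)))
      have e4 : D ^ (2 ^ (j + 1)) = D ^ (2 ^ j) * D ^ (2 ^ j) := by
        rw [← pow_add]
        congr 1
        ring
      rw [e4]
      exact sub_mem (Submodule.mul_mem_mul ha2 hb2) (Submodule.mul_mem_mul hb2 ha2)
    intro p hp
    exact hle hp

private theorem pser_pow_mono {R : Type*} [Ring R] {A B : Submodule ℤ R} (h : A ≤ B) (n : ℕ) :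
    A ^ n ≤ B ^ n := by
  induction n with
  | zero => simp
  | succ n ih =>
    rw [pow_succ, pow_succ]
    exact mul_le_mul' ih h


theorem pser_trivial {R : Type*} [Ring R] {O : Set Rˣ} (G₀ : Subgroup Rˣ)
    (hG : G₀ ≤ Subgroup.closure O) (S : Submodule ℤ R) (hS : S ≤ MO O)
    (hM1 : MO O * S ≤ S) (hM2 : S * MO O ≤ S)
    (h1 : ∀ c ∈ ⁅G₀, G₀⁆, (c : R) - 1 ∈ S) (N : ℕ) (hN : (S * DO O) ^ N = ⊥) (k : ℕ)
    (hk : 2 * N ≤ 2 ^ k) (p : Rˣ) (hp : p ∈ Pser G₀ (k + 1)) : p = 1 := by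
  have hone := one_le_MO O
  have hCle : ⁅G₀, G₀⁆ ≤ Subgroup.closure O := by
    rw [Subgroup.commutator_le]
    intro a ha b hb
    rw [commutatorElement_def]
    exact mul_mem (mul_mem (mul_mem (hG ha) (hG hb)) (inv_mem (hG ha))) (inv_mem (hG hb))
  obtain ⟨X, hX⟩ : ∃ X : Submodule ℤ R, X = Submodule.span ℤ {r | ∃ c ∈ ⁅G₀, G₀⁆,
    r = ((c : Rˣ) : R) - 1} := ⟨_, rfl⟩
  have hXS : X ≤ S := by
    rw [hX, Submodule.span_le]
    rintro r ⟨c, hc, rfl⟩
    exact h1 c hc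
  have hXD : X ≤ DO O := by
    rw [hX, Submodule.span_le]
    rintro r ⟨c, hc, rfl⟩
    exact Submodule.subset_span ⟨c, hCle hc, 1, one_mem _, by rw [Units.val_one]⟩
  have hDS : MO O * X * MO O ≤ S :=
    (mul_le_mul' ((mul_le_mul' le_rfl hXS).trans hM1) le_rfl).trans hM2
  have hDD : MO O * X * MO O ≤ DO O :=
    (mul_le_mul' ((mul_le_mul' le_rfl hXD).trans (MO_mul_DO O).le)
      le_rfl).trans (DO_mul_MO O).le
  have hl : MO O * (MO O * X * MO O) ≤ MO O * X * MO O := by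
    rw [← mul_assoc, ← mul_assoc, MO_mul_MO]
  have hr : (MO O * X * MO O) * MO O ≤ MO O * X * MO O := by
    rw [mul_assoc, MO_mul_MO]
  have h3 : ∀ c ∈ ⁅G₀, G₀⁆, (c : R) - 1 ∈ MO O * X * MO O := by
    intro c hc
    have hc1 : (c : R) - 1 ∈ X := by
      rw [hX]
      exact Submodule.subset_span ⟨c, hc, rfl⟩
    have h1M : (1 : R) ∈ MO O := Submodule.one_le.1 hone
    have := Submodule.mul_mem_mul (Submodule.mul_mem_mul h1M hc1) h1M
    rwa [one_mul, mul_one] at this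
  obtain ⟨-, hp2⟩ := pser_main G₀ hG _ hl hr h3 k p hp
  have h4 : (MO O * X * MO O) ^ (2 * N) ≤ ⊥ := by
    rw [pow_mul, ← hN, sq]
    exact pser_pow_mono (mul_le_mul' hDS hDD) N
  have h5 : (MO O * X * MO O) ^ (2 ^ k) ≤ ⊥ := by
    rw [show 2 ^ k = 2 * N + (2 ^ k - 2 * N) by omega, pow_add]
    refine (mul_le_mul' h4 le_rfl).trans ?_
    rw [Submodule.bot_mul]
  have h6 := h5 hp2
  rw [Submodule.mem_bot, sub_eq_zero] at h6
  exact Units.ext h6

end Pool.Agent.Helper619.Split4
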