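import Pool.Agent.Helper619.Split4.Defs
import Pool.Agent.Helper619.Split4.G_MM
import Pool.Agent.Helper619.Split4.G_commS
import Pool.Agent.Helper619.Split4.G_modS
import Pool.Agent.Helper619.Split4.G_nilJ
import Pool.Agent.Helper619.Split4.G_nilsum
import Pool.Agent.Helper619.Split4.G_pser

set_option autoImplicit false

namespace Pool.Agent.Helper619.Split4

private theorem linear_main_MJ {R : Type*} [Ring R] (O : Set Rˣ) (x : Rˣ) : MO O * JO O x = JO O x := by
  unfold JO
  rw [← mul_assoc, ← mul_assoc, MO_mul_MO]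

private theorem linear_main_JM {R : Type*} [Ring R] (O : Set Rˣ) (x : Rˣ) : JO O x * MO O = JO O x := by
  unfold JO
  rw [mul_assoc, MO_mul_MO]

private theorem linear_main_JleM {R : Type*} [Ring R] {O : Set Rˣ} {x : Rˣ} (hx : x ∈ O) :
    JO O x ≤ MO O := by
  have h1 : ln (ee x) ≤ MO O := by
    unfold ln
    rw [Submodule.span_singleton_le_iff_mem]
    unfold ee
    refine add_mem (one_le_MO O (Submodule.one_le.mp le_rfl)) ?_
    refine Submodule.subset_span ⟨x ^ 2, pow_mem (Subgroup.subset_closure hx) 2, ?_⟩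
    push_cast
    rfl
  unfold JO
  calc MO O * ln (ee x) * MO O ≤ MO O * MO O * MO O := by gcongr
    _ = MO O := by rw [MO_mul_MO, MO_mul_MO]


theorem linear_main {R : Type*} [Ring R] {O : Set Rˣ} (h : OddSet O)
    (h3 : ∀ r : R, 3 * r = 0 → r = 0) {ι : Type*} [Fintype ι] (v : ι → Rˣ) (hv : ∀ i, v i ∈ O)
    (k : ℕ) (hk : 2 * 14 ^ (Fintype.card ι + Fintype.card ι ^ 3) ≤ 2 ^ k) (p : Rˣ)
    (hp : p ∈ Pser (Subgroup.closure {u : Rˣ | ∃ i j, u = v i * v j}) (k + 1)) : p = 1 := by
  classical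
  let x : ι ⊕ (ι × ι × ι) → Rˣ := Sum.elim v (fun t => v t.1 * v t.2.1 * v t.2.2)
  have hx : ∀ a, x a ∈ O := by
    rintro (i | ⟨i, j, l⟩)
    · exact hv i
    · exact h.mul3 _ (hv i) _ (hv j) _ (hv l)
  let S : Submodule ℤ R := ⨆ a, JO O (x a)
  have hSM : S ≤ MO O := iSup_le fun a => linear_main_JleM (hx a)
  have hM1 : MO O * S ≤ S := by
    show MO O * (⨆ a, JO O (x a)) ≤ _
    rw [Submodule.mul_iSup]
    exact iSup_le fun a => by
      rw [linear_main_MJ]
      exact le_iSup (fun a => JO O (x a)) a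
  have hM2 : S * MO O ≤ S := by
    show (⨆ a, JO O (x a)) * MO O ≤ _
    rw [Submodule.iSup_mul]
    exact iSup_le fun a => by
      rw [linear_main_JM]
      exact le_iSup (fun a => JO O (x a)) a
  have hSD : S * DO O = Finset.univ.sup (fun a => JO O (x a) * DO O) := by
    show (⨆ a, JO O (x a)) * DO O = _
    rw [Submodule.iSup_mul, Finset.sup_univ_eq_iSup]
  have hnil := nilsum (MO O) (Finset.univ : Finset (ι ⊕ (ι × ι × ι)))
    (fun a => JO O (x a) * DO O) 14 (by norm_num)
    (fun a _ => by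
      calc JO O (x a) * DO O ≤ MO O * MO O :=
            mul_le_mul' (linear_main_JleM (hx a)) (DO_le_MO O)
        _ = MO O := MO_mul_MO O)
    (fun a _ => by rw [← mul_assoc, linear_main_MJ])
    (fun a _ => by rw [mul_assoc, DO_mul_MO])
    (fun a _ => nilJ h h3 (hx a))
  rw [← hSD] at hnil
  have hcard : (Finset.univ : Finset (ι ⊕ (ι × ι × ι))).card =
      Fintype.card ι + Fintype.card ι ^ 3 := by
    rw [Finset.card_univ, Fintype.card_sum, Fintype.card_prod, Fintype.card_prod]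
    ring
  rw [hcard] at hnil
  have hG : Subgroup.closure {u : Rˣ | ∃ i j, u = v i * v j} ≤ Subgroup.closure O := by
    rw [Subgroup.closure_le]
    rintro u ⟨i, j, rfl⟩
    exact mul_mem (Subgroup.subset_closure (hv i)) (Subgroup.subset_closure (hv j))
  have hS1 : ∀ i, JO O (v i) ≤ S := fun i => le_iSup (fun a => JO O (x a)) (Sum.inl i)
  have hS2 : ∀ i j l, JO O (v i * v j * v l) ≤ S := fun i j l =>
    le_iSup (fun a => JO O (x a)) (Sum.inr (i, j, l))
  have hc : ∀ g ∈ Subgroup.closure {u : Rˣ | ∃ i j, u = v i * v j},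
      ∀ l ∈ Subgroup.closure {u : Rˣ | ∃ i j, u = v i * v j},
      (g : R) * (l : R) - (l : R) * (g : R) ∈ S := fun g hg l hl =>
    modS h v hv S hS1 hS2 hM1 hM2 hg hl
  exact pser_trivial _ hG S hSM hM1 hM2 (fun c hc' => commS _ hG S hM1 hM2 hc c hc') _ hnil k hk p hp

end Pool.Agent.Helper619.Split4
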