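import Pool.Agent.Helper619.Split4.Defs

set_option autoImplicit false

namespace Pool.Agent.Helper619.Split4

/-- the odd set of a splitting automorphism -/
def OS {G R : Type*} [Group G] [Ring R] (ρ : G →* Rˣ) (Φ : Rˣ) : Set Rˣ :=
  {u | ∃ g : G, ∃ m : ℤ, Odd m ∧ u = -(ρ g * Φ ^ m)}

private theorem oddO_conj {G R : Type*} [Group G] [Ring R] (φ : MulAut G) (ρ : G →* Rˣ) (Φ : Rˣ)
    (hΦ : ∀ g, Φ * ρ g * Φ⁻¹ = ρ (φ g)) (m : ℤ) : ∀ g, Φ ^ m * ρ g = ρ ((φ ^ m) g) * Φ ^ m := by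
  have h1 : ∀ g, Φ * ρ g = ρ (φ g) * Φ := fun g => by rw [← hΦ g]; group
  have h2 : ∀ g, Φ⁻¹ * ρ g = ρ (φ⁻¹ g) * Φ⁻¹ := fun g => by
    have h := hΦ (φ⁻¹ g)
    rw [MulAut.apply_inv_self] at h
    rw [← h]; group
  induction m using Int.induction_on with
  | zero => intro g; simp
  | succ i ih =>
    intro g
    rw [zpow_add_one, mul_assoc, h1, ← mul_assoc, ih, zpow_add_one, mul_assoc]
    rfl
  | pred i ih =>
    intro g
    rw [zpow_sub_one, mul_assoc, h2, ← mul_assoc, ih, zpow_sub_one, mul_assoc]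
    rfl

private theorem oddO_pow4 {R : Type*} [Ring R] (w : Rˣ)
    (h : (1 : R) + (w : R) + (w : R) ^ 2 + (w : R) ^ 3 = 0) : w ^ 4 = 1 := by
  apply Units.ext
  rw [Units.val_pow_eq_pow_val, Units.val_one]
  have : (w : R) ^ 4 - 1 = ((w : R) - 1) * ((1 : R) + (w : R) + (w : R) ^ 2 + (w : R) ^ 3) := by
    noncomm_ring
  rw [h, mul_zero] at this
  exact sub_eq_zero.1 this

private theorem oddO_rel {R : Type*} [Ring R] (w : Rˣ)
    (h : (1 : R) + (w : R) + (w : R) ^ 2 + (w : R) ^ 3 = 0) :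
    ((-w : Rˣ) : R) + (((-w)⁻¹ : Rˣ) : R) = 1 + ((-w : Rˣ) : R) ^ 2 := by
  have h4 := oddO_pow4 w h
  have h5 : w⁻¹ = w ^ 3 := by
    rw [inv_eq_iff_mul_eq_one, ← pow_succ']
    exact h4
  rw [inv_neg, h5]
  push_cast
  have e : -(w : R) + -(w : R) ^ 3 - (1 + (-(w : R)) ^ 2) =
      -((1 : R) + (w : R) + (w : R) ^ 2 + (w : R) ^ 3) := by
    rw [neg_sq]; abel
  rw [h, neg_zero] at e
  exact sub_eq_zero.1 e

private theorem oddO_rel' {R : Type*} [Ring R] (w : Rˣ)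
    (h : (1 : R) + (w : R) + (w : R) ^ 2 + (w : R) ^ 3 = 0) :
    (((-w)⁻¹ : Rˣ) : R) + ((((-w)⁻¹)⁻¹ : Rˣ) : R) = 1 + (((-w)⁻¹ : Rˣ) : R) ^ 2 := by
  have h4 := oddO_pow4 w h
  have h5 : ((-w)⁻¹) ^ 2 = (-w) ^ 2 := by
    rw [inv_pow, neg_sq, inv_eq_iff_mul_eq_one, ← pow_add]
    exact h4
  have h6 := oddO_rel w h
  have h7 : (((-w)⁻¹ : Rˣ) : R) ^ 2 = ((-w : Rˣ) : R) ^ 2 := by
    have := congrArg (fun u : Rˣ => (u : R)) h5
    simpa only [Units.val_pow_eq_pow_val] using this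
  rw [h7, inv_inv, ← h6, add_comm]

theorem oddO {G R : Type*} [Group G] [Ring R] (φ : MulAut G) (ρ : G →* Rˣ) (Φ : Rˣ)
    (hΦ : ∀ g, Φ * ρ g * Φ⁻¹ = ρ (φ g))
    (hs : ∀ g : G, (1 : R) + ((ρ g * Φ : Rˣ) : R) + ((ρ g * Φ : Rˣ) : R) ^ 2 +
      ((ρ g * Φ : Rˣ) : R) ^ 3 = 0) : OddSet (OS ρ Φ) := by
  have hc := oddO_conj φ ρ Φ hΦ
  refine ⟨?_, ?_, ?_⟩
  · rintro x ⟨a, k, hk, rfl⟩ y ⟨b, l, hl, rfl⟩ z ⟨c, m, hm, rfl⟩
    refine ⟨a * (φ ^ k) b * (φ ^ (k + l)) c, k + l + m, ?_, ?_⟩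
    · exact (hk.add_odd hl).add_odd hm
    · rw [neg_mul_neg, mul_neg]
      congr 1
      calc ρ a * Φ ^ k * (ρ b * Φ ^ l) * (ρ c * Φ ^ m)
          = ρ a * (Φ ^ k * ρ b) * Φ ^ l * (ρ c * Φ ^ m) := by group
        _ = ρ a * ρ ((φ ^ k) b) * (Φ ^ (k + l) * ρ c) * Φ ^ m := by
            rw [hc k b, zpow_add]; group
        _ = _ := by
            rw [hc (k + l) c, map_mul, map_mul, zpow_add Φ (k + l) m]; group
  · rintro x ⟨a, k, hk, rfl⟩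
    refine ⟨(φ ^ (-k)) a⁻¹, -k, hk.neg, ?_⟩
    rw [inv_neg, mul_inv_rev, ← zpow_neg, ← map_inv, hc (-k) a⁻¹]
  · rintro x ⟨g, m, hm, rfl⟩
    have hΦ4 : Φ ^ 4 = 1 := by
      apply oddO_pow4
      have := hs 1
      rwa [map_one, one_mul] at this
    have hz : ∀ q : ℤ, Φ ^ (4 * q) = 1 := by
      intro q
      rw [zpow_mul]
      have : Φ ^ (4 : ℤ) = 1 := by exact_mod_cast hΦ4
      rw [this, one_zpow]
    obtain ⟨t, ht⟩ := hm
    rcases Int.even_or_odd' t with ⟨q, hq | hq⟩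
    · have e : m = 4 * q + 1 := by omega
      rw [e, zpow_add, hz, one_mul, zpow_one]
      exact oddO_rel _ (hs g)
    · have e : m = 4 * (q + 1) + (-1) := by omega
      rw [e, zpow_add, hz, one_mul, zpow_neg_one]
      have e2 : -(ρ g * Φ⁻¹) = (-(ρ (φ g⁻¹) * Φ))⁻¹ := by
        rw [inv_neg, mul_inv_rev, ← hΦ g⁻¹, map_inv]
        congr 1
        group
      rw [e2]
      exact oddO_rel' _ (hs (φ g⁻¹))

end Pool.Agent.Helper619.Split4
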