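import Pool.Agent.Helper619.Split4.Defs
import Pool.Agent.Helper619.Split4.G_basic
import Pool.Agent.Helper619.Split4.G_linear_main
import Pool.Agent.Helper619.Split4.G_oddO

set_option autoImplicit false

namespace Pool.Agent.Helper619.Split4

theorem app_ring {G R : Type*} [Group G] [Ring R] (φ : MulAut G) (ρ : G →* Rˣ) (Φ : Rˣ)
    (hΦ : ∀ g, Φ * ρ g * Φ⁻¹ = ρ (φ g))
    (hs : ∀ g : G, (1 : R) + ((ρ g * Φ : Rˣ) : R) + ((ρ g * Φ : Rˣ) : R) ^ 2 +
      ((ρ g * Φ : Rˣ) : R) ^ 3 = 0)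
    (h3 : ∀ r : R, 3 * r = 0 → r = 0) (s : Finset G) (hgen : Subgroup.closure (s : Set G) = ⊤)
    (k : ℕ) (hk : 2 * 14 ^ ((s.card + 1) + (s.card + 1) ^ 3) ≤ 2 ^ k) :
    ∀ g ∈ derivedSeries G (k + 1), ρ g = 1 := by
  have h := oddO φ ρ Φ hΦ hs
  let v : Option s → Rˣ := fun o => match o with
    | none => -Φ
    | some g => -(ρ g * Φ)
  have hv0 : v none = -Φ := rfl
  have hv1 : ∀ g : s, v (some g) = -(ρ g * Φ) := fun g => rfl
  have hv : ∀ i, v i ∈ OS ρ Φ := by
    intro i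
    rcases i with _ | g
    · refine ⟨1, 1, odd_one, ?_⟩
      rw [hv0, map_one, one_mul, zpow_one]
    · refine ⟨g, 1, odd_one, ?_⟩
      rw [hv1, zpow_one]
  have hcard : Fintype.card (Option s) = s.card + 1 := by
    rw [Fintype.card_option, Fintype.card_coe]
  obtain ⟨G₀, hG₀⟩ : ∃ G₀ : Subgroup Rˣ, G₀ = Subgroup.closure {u : Rˣ | ∃ i j, u = v i * v j} :=
    ⟨_, rfl⟩
  have hprod : ∀ i j, v i * v j ∈ G₀ := by
    intro i j
    rw [hG₀]
    exact Subgroup.subset_closure ⟨i, j, rfl⟩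
  have h4 : Φ ^ 4 = 1 := by
    have := pow4 h (hv none)
    rw [hv0] at this
    rwa [Even.neg_pow (by decide)] at this
  have hgs : ∀ g ∈ s, ρ g ∈ G₀ := by
    intro g hg
    have h5 : ρ g = (v (some ⟨g, hg⟩) * v none) * (v none * v none) := by
      rw [hv0, hv1, neg_mul_neg, neg_mul_neg]
      have : ρ g * Φ * Φ * (Φ * Φ) = ρ g * Φ ^ 4 := by
        simp only [pow_succ, pow_zero, one_mul, mul_assoc]
      rw [this, h4, mul_one]
    rw [h5]
    exact G₀.mul_mem (hprod (some ⟨g, hg⟩) none) (hprod none none)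
  have hall : ∀ g : G, ρ g ∈ G₀ := by
    intro g
    have h6 : Subgroup.closure (s : Set G) ≤ G₀.comap ρ := by
      rw [Subgroup.closure_le]
      intro x hx
      exact hgs x (Finset.mem_coe.1 hx)
    have h7 : g ∈ Subgroup.closure (s : Set G) := by rw [hgen]; exact Subgroup.mem_top g
    exact h6 h7
  have hind : ∀ n, (derivedSeries G n).map ρ ≤ Pser G₀ n := by
    intro n
    induction n with
    | zero =>
      rw [Subgroup.map_le_iff_le_comap]
      intro g _
      exact hall g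
    | succ n ih =>
      rw [derivedSeries_succ, Subgroup.map_commutator]
      exact Subgroup.commutator_mono ih ih
  intro g hg
  refine linear_main h h3 v hv k ?_ (ρ g) ?_
  · rw [hcard]; exact hk
  · rw [← hG₀]
    exact hind (k + 1) (Subgroup.mem_map_of_mem ρ hg)

end Pool.Agent.Helper619.Split4
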