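import Pool.Agent.Helper619.Split4.Defs
import Pool.Agent.Helper619.Split4.G_app_ring

set_option autoImplicit false

namespace Pool.Agent.Helper619.Split4

theorem app_group {G : Type*} [Group G] (hp : IsPGroup 2 G) (φ : MulAut G)
    (hsplit : ∀ x : G, x * φ x * φ (φ x) * φ (φ (φ x)) = 1)
    (s : Finset G) (hgen : Subgroup.closure (s : Set G) = ⊤)
    (k : ℕ) (hk : 2 * 14 ^ ((s.card + 1) + (s.card + 1) ^ 3) ≤ 2 ^ k)
    (A : Subgroup G) (hA : A.Normal) (hcomm : ∀ a ∈ A, ∀ b ∈ A, a * b = b * a)
    (hφ : ∀ a ∈ A, φ a ∈ A) :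
    ∀ g ∈ derivedSeries G (k + 1), ∀ a ∈ A, g * a = a * g := by
  classical
  have h4 : ∀ x : G, φ (φ (φ (φ x))) = x := by
    intro x
    have e1 := hsplit x
    have e2 := hsplit (φ x)
    have e3 : x⁻¹ = φ x * φ (φ x) * φ (φ (φ x)) := by
      rw [inv_eq_iff_mul_eq_one]
      rw [← mul_assoc, ← mul_assoc]
      exact e1
    rw [← e3] at e2
    have e4 := inv_mul_eq_one.1 e2
    exact e4.symm
  letI instC : CommGroup A :=
    { (inferInstance : Group A) with
      mul_comm := fun a b => Subtype.ext (hcomm a a.2 b b.2) }
  let cj : G → AddMonoid.End (Additive A) := fun g =>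
    { toFun := fun a => Additive.ofMul ⟨g * (Additive.toMul a : A).1 * g⁻¹,
        hA.conj_mem _ (Additive.toMul a : A).2 g⟩
      map_zero' := by
        apply Additive.toMul.injective
        apply Subtype.ext
        show g * 1 * g⁻¹ = 1
        group
      map_add' := by
        intro a b
        apply Additive.toMul.injective
        apply Subtype.ext
        show g * ((Additive.toMul a : A).1 * (Additive.toMul b : A).1) * g⁻¹ =
          (g * (Additive.toMul a : A).1 * g⁻¹) * (g * (Additive.toMul b : A).1 * g⁻¹)
        group }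
  let ρ0 : G →* AddMonoid.End (Additive A) :=
    { toFun := cj
      map_one' := by
        apply AddMonoidHom.ext
        intro a
        apply Additive.toMul.injective
        apply Subtype.ext
        show 1 * (Additive.toMul a : A).1 * 1⁻¹ = (Additive.toMul a : A).1
        group
      map_mul' := by
        intro g h
        apply AddMonoidHom.ext
        intro a
        apply Additive.toMul.injective
        apply Subtype.ext
        show (g * h) * (Additive.toMul a : A).1 * (g * h)⁻¹ =
          g * (h * (Additive.toMul a : A).1 * h⁻¹) * g⁻¹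
        group }
  let F : AddMonoid.End (Additive A) :=
    { toFun := fun a => Additive.ofMul ⟨φ (Additive.toMul a : A).1,
        hφ _ (Additive.toMul a : A).2⟩
      map_zero' := by
        apply Additive.toMul.injective
        apply Subtype.ext
        show φ 1 = 1
        exact map_one φ
      map_add' := by
        intro a b
        apply Additive.toMul.injective
        apply Subtype.ext
        show φ ((Additive.toMul a : A).1 * (Additive.toMul b : A).1) =
          φ (Additive.toMul a : A).1 * φ (Additive.toMul b : A).1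
        exact map_mul φ _ _ }
  have hF4 : ∀ a : Additive A, F (F (F (F a))) = a := by
    intro a
    apply Additive.toMul.injective
    apply Subtype.ext
    exact h4 _
  let Φ : (AddMonoid.End (Additive A))ˣ :=
    { val := F
      inv := F * F * F
      val_inv := by
        apply AddMonoidHom.ext
        intro a
        exact hF4 a
      inv_val := by
        apply AddMonoidHom.ext
        intro a
        exact hF4 a }
  let ρ : G →* (AddMonoid.End (Additive A))ˣ := ρ0.toHomUnits
  have hρ : ∀ g, ((ρ g : (AddMonoid.End (Additive A))ˣ) : AddMonoid.End (Additive A)) = cj g :=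
    fun g => rfl
  have hΦ : ∀ g, Φ * ρ g * Φ⁻¹ = ρ (φ g) := by
    intro g
    apply Units.ext
    apply AddMonoidHom.ext
    intro a
    apply Additive.toMul.injective
    apply Subtype.ext
    show φ (g * φ (φ (φ (Additive.toMul a : A).1)) * g⁻¹) =
      φ g * (Additive.toMul a : A).1 * (φ g)⁻¹
    rw [map_mul, map_mul, map_inv, h4]
  have hs : ∀ g : G, (1 : AddMonoid.End (Additive A)) +
      ((ρ g * Φ : (AddMonoid.End (Additive A))ˣ) : AddMonoid.End (Additive A)) +
      ((ρ g * Φ : (AddMonoid.End (Additive A))ˣ) : AddMonoid.End (Additive A)) ^ 2 +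
      ((ρ g * Φ : (AddMonoid.End (Additive A))ˣ) : AddMonoid.End (Additive A)) ^ 3 = 0 := by
    intro g
    have p2 : ∀ w : AddMonoid.End (Additive A), w ^ 2 = w * w := fun w => pow_two w
    have p3 : ∀ w : AddMonoid.End (Additive A), w ^ 3 = w * w * w := fun w => by
      rw [pow_succ, pow_two]
    rw [p2, p3]
    apply AddMonoidHom.ext
    intro a
    apply Additive.toMul.injective
    apply Subtype.ext
    have e1 := hsplit ((Additive.toMul a : A).1 * g)
    have e2 := hsplit g
    show (Additive.toMul a : A).1 * (g * φ (Additive.toMul a : A).1 * g⁻¹) *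
      (g * φ (g * φ (Additive.toMul a : A).1 * g⁻¹) * g⁻¹) *
      (g * φ (g * φ (g * φ (Additive.toMul a : A).1 * g⁻¹) * g⁻¹) * g⁻¹) = 1
    generalize (Additive.toMul a : A).1 = x at e1 ⊢
    have e3 : x * (g * φ x * g⁻¹) * (g * φ (g * φ x * g⁻¹) * g⁻¹) *
        (g * φ (g * φ (g * φ x * g⁻¹) * g⁻¹) * g⁻¹) =
        (x * g * φ (x * g) * φ (φ (x * g)) * φ (φ (φ (x * g)))) *
          (g * φ g * φ (φ g) * φ (φ (φ g)))⁻¹ := by
      simp only [map_mul, map_inv]
      group
    rw [e3, e1, e2]
    simp
  have h3 : ∀ r : AddMonoid.End (Additive A), 3 * r = 0 → r = 0 := by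
    intro r hr
    have e1 : (3 : AddMonoid.End (Additive A)) * r = r + r + r := by
      rw [show (3 : AddMonoid.End (Additive A)) = 1 + 1 + 1 by norm_num, add_mul, add_mul, one_mul]
    rw [e1] at hr
    apply AddMonoidHom.ext
    intro a
    have e2 : r a + r a + r a = 0 := by
      have := DFunLike.congr_fun hr a
      exact this
    apply Additive.toMul.injective
    apply Subtype.ext
    have e3 : (Additive.toMul (r a) : A).1 * (Additive.toMul (r a) : A).1 *
        (Additive.toMul (r a) : A).1 = 1 := congrArg (fun z : Additive A => (Additive.toMul z : A).1) e2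
    show (Additive.toMul (r a) : A).1 = 1
    generalize (Additive.toMul (r a) : A).1 = y at e3
    obtain ⟨n, hn⟩ := hp y
    have e4 : orderOf y ∣ 2 ^ n := orderOf_dvd_of_pow_eq_one hn
    have e5 : orderOf y ∣ 3 := by
      apply orderOf_dvd_of_pow_eq_one
      rw [pow_succ, pow_two]
      exact e3
    have e6 : Nat.Coprime (2 ^ n) 3 := Nat.Coprime.pow_left n (by norm_num)
    have e7 : orderOf y ∣ 1 := by
      rw [← Nat.Coprime.gcd_eq_one e6]
      exact Nat.dvd_gcd e4 e5
    exact orderOf_eq_one_iff.1 (Nat.dvd_one.1 e7)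
  intro g hg a ha
  have key := app_ring φ ρ Φ hΦ hs h3 s hgen k hk g hg
  have e1 : cj g = 1 := by
    rw [← hρ g, key]
    rfl
  have e2 := DFunLike.congr_fun e1 (Additive.ofMul (⟨a, ha⟩ : A))
  have e3 : g * a * g⁻¹ = a := congrArg (fun z : Additive A => (Additive.toMul z : A).1) e2
  calc g * a = g * a * g⁻¹ * g := by group
    _ = a * g := by rw [e3]

end Pool.Agent.Helper619.Split4
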