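import Pool.Agent.Helper619.Split4.Defs

set_option autoImplicit false

namespace Pool.Agent.Helper619.Split4

open scoped commutatorElement in
private theorem extend_core {Q : Type*} [Group Q] (hp : IsPGroup 2 Q) (hnil : Group.IsNilpotent Q)
    (ψ : Q →* Q) (h4 : ∀ x : Q, ψ (ψ (ψ (ψ x))) = x) (N : Subgroup Q) (hN : N.Normal)
    (hNψ : ∀ a ∈ N, ψ a ∈ N) (hne : ∃ a ∈ N, a ≠ 1) :
    ∃ c ∈ N, c ≠ 1 ∧ (∀ g : Q, g * c = c * g) ∧ ψ c = c := by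
  classical
  -- a central element
  obtain ⟨c0, hc0N, hc01, hc0c⟩ : ∃ c ∈ N, c ≠ 1 ∧ ∀ g : Q, g * c = c * g := by
    obtain ⟨n, hn⟩ := hnil.nilpotent'
    obtain ⟨a, haN, ha1⟩ := hne
    have hex : ∃ n, ∃ c ∈ N, c ≠ 1 ∧ c ∈ Subgroup.upperCentralSeries Q n :=
      ⟨n, a, haN, ha1, by rw [hn]; exact Subgroup.mem_top a⟩
    obtain ⟨c, hcN, hc1, hcm⟩ := Nat.find_spec hex
    have hmin := fun m (hm : m < Nat.find hex) => Nat.find_min hex hm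
    rcases hk : Nat.find hex with _ | k
    · rw [hk, Subgroup.upperCentralSeries_zero, Subgroup.mem_bot] at hcm
      exact absurd hcm hc1
    · rw [hk] at hcm hmin
      refine ⟨c, hcN, hc1, fun g => ?_⟩
      have h1 := Subgroup.mem_upperCentralSeries_succ_iff.1 hcm g
      have h2 : ⁅c, g⁆ ∈ N := by
        rw [commutatorElement_def]
        have h3 : c * g * c⁻¹ * g⁻¹ = c * (g * c⁻¹ * g⁻¹) := by group
        rw [h3]
        exact N.mul_mem hcN (hN.conj_mem _ (N.inv_mem hcN) g)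
      have h3 : ⁅c, g⁆ = 1 := by
        by_contra h3
        exact hmin k (Nat.lt_succ_self k) ⟨_, h2, h3, h1⟩
      rw [commutatorElement_eq_one_iff_mul_comm] at h3
      exact h3.symm
  -- an element of order two
  obtain ⟨c, hcN, hc1, hcc, hc2⟩ : ∃ c ∈ N, c ≠ 1 ∧ (∀ g : Q, g * c = c * g) ∧ c * c = 1 := by
    have hex : ∃ k, c0 ^ 2 ^ k = 1 := hp c0
    have h1 := Nat.find_spec hex
    have hmin := fun m (hm : m < Nat.find hex) => Nat.find_min hex hm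
    rcases hk : Nat.find hex with _ | k
    · rw [hk] at h1
      simp at h1
      exact absurd h1 hc01
    · rw [hk] at h1 hmin
      refine ⟨c0 ^ 2 ^ k, N.pow_mem hc0N _, hmin k (Nat.lt_succ_self k), fun g => ?_, ?_⟩
      · have : Commute g c0 := hc0c g
        exact this.pow_right _
      · rw [← pow_add, ← two_mul, ← pow_succ']
        exact h1
  have hsurj : ∀ g, ∃ g', ψ g' = g := fun g => ⟨ψ (ψ (ψ g)), h4 g⟩
  have hstep : ∀ d : Q, (d ∈ N ∧ (∀ g : Q, g * d = d * g) ∧ d * d = 1) →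
      (d * ψ d ∈ N ∧ (∀ g : Q, g * (d * ψ d) = d * ψ d * g) ∧ d * ψ d * (d * ψ d) = 1) := by
    rintro d ⟨h1, h2, h3⟩
    have h5 : ∀ g, g * ψ d = ψ d * g := by
      intro g
      obtain ⟨g', rfl⟩ := hsurj g
      rw [← map_mul, h2, map_mul]
    refine ⟨N.mul_mem h1 (hNψ d h1), fun g => ?_, ?_⟩
    · rw [← mul_assoc, h2 g, mul_assoc, h5 g, mul_assoc]
    · calc d * ψ d * (d * ψ d) = d * (ψ d * d) * ψ d := by group
        _ = d * (d * ψ d) * ψ d := by rw [h2 (ψ d)]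
        _ = (d * d) * (ψ d * ψ d) := by group
        _ = 1 := by rw [← map_mul, h3, map_one, mul_one]
  have hfix : ∀ d : Q, d * d = 1 → d * ψ d = 1 → ψ d = d := by
    intro d h1 h2
    exact mul_left_cancel (h2.trans h1.symm)
  have hd2 : ∀ d : Q, d * d = 1 → (d * ψ d) * ψ (d * ψ d) = d * ψ (ψ d) := by
    intro d h1
    calc (d * ψ d) * ψ (d * ψ d) = d * (ψ d * ψ d) * ψ (ψ d) := by rw [map_mul]; group
      _ = d * ψ (ψ d) := by rw [← map_mul, h1, map_one, mul_one]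
  have P0 : (c ∈ N ∧ (∀ g : Q, g * c = c * g) ∧ c * c = 1) := ⟨hcN, hcc, hc2⟩
  have P1 := hstep _ P0
  have P2 := hstep _ P1
  have P3 := hstep _ P2
  by_cases e1 : c * ψ c = 1
  · exact ⟨c, hcN, hc1, hcc, hfix c hc2 e1⟩
  by_cases e2 : (c * ψ c) * ψ (c * ψ c) = 1
  · exact ⟨_, P1.1, e1, P1.2.1, hfix _ P1.2.2 e2⟩
  have q2 := hd2 c hc2
  have P2' := P2
  have P3' := P3
  rw [q2] at P2' P3' e2
  by_cases e3 : (c * ψ (ψ c)) * ψ (c * ψ (ψ c)) = 1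
  · exact ⟨_, P2'.1, e2, P2'.2.1, hfix _ P2'.2.2 e3⟩
  · refine ⟨_, P3'.1, e3, P3'.2.1, hfix _ P3'.2.2 ?_⟩
    rw [hd2 _ P2'.2.2]
    calc c * ψ (ψ c) * ψ (ψ (c * ψ (ψ c))) = c * (ψ (ψ c) * ψ (ψ c)) * ψ (ψ (ψ (ψ c))) := by
          rw [map_mul, map_mul]; group
      _ = 1 := by rw [← map_mul, ← map_mul, hc2, map_one, map_one, mul_one, h4, hc2]


theorem extend {G : Type*} [Group G] (hp : IsPGroup 2 G) (hnil : Group.IsNilpotent G)
    (φ : MulAut G) (h4 : ∀ x : G, φ (φ (φ (φ x))) = x)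
    (N A : Subgroup G) (hN : N.Normal) (hNφ : ∀ a ∈ N, φ a ∈ N) (hA : A.Normal)
    (hAφ : ∀ a ∈ A, φ a ∈ A) (hAN : A < N) :
    ∃ c ∈ N, c ∉ A ∧ (∀ g : G, g * c * g⁻¹ * c⁻¹ ∈ A) ∧ φ c * c⁻¹ ∈ A := by
  classical
  have hnilQ : Group.IsNilpotent (G ⧸ A) := inferInstance
  have hpQ : IsPGroup 2 (G ⧸ A) := hp.to_quotient A
  let ψ : (G ⧸ A) →* (G ⧸ A) := QuotientGroup.map A A φ.toMonoidHom (fun a ha => hAφ a ha)
  have hψ : ∀ x : G, ψ (x : G ⧸ A) = ((φ x : G) : G ⧸ A) := fun x => rfl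
  have hψ4 : ∀ x : G ⧸ A, ψ (ψ (ψ (ψ x))) = x := by
    intro x
    obtain ⟨x, rfl⟩ := QuotientGroup.mk_surjective x
    rw [hψ, hψ, hψ, hψ, h4]
  obtain ⟨a, haN, haA⟩ := SetLike.exists_of_lt hAN
  have hNQ : (N.map (QuotientGroup.mk' A)).Normal := hN.map _ (QuotientGroup.mk'_surjective A)
  obtain ⟨c', hc'N, hc'1, hc'c, hc'ψ⟩ := extend_core hpQ hnilQ ψ hψ4 (N.map (QuotientGroup.mk' A)) hNQ
    (by
      rintro _ ⟨b, hb, rfl⟩
      exact ⟨φ b, hNφ b hb, rfl⟩)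
    ⟨(a : G ⧸ A), ⟨a, haN, rfl⟩, fun h => haA ((QuotientGroup.eq_one_iff a).1 h)⟩
  obtain ⟨c, hcN, rfl⟩ := hc'N
  refine ⟨c, hcN, fun h => hc'1 ((QuotientGroup.eq_one_iff c).2 h), fun g => ?_, ?_⟩
  · rw [← QuotientGroup.eq_one_iff]
    have h1 : ((g : G) : G ⧸ A) * (c : G ⧸ A) = (c : G ⧸ A) * (g : G ⧸ A) := hc'c _
    rw [QuotientGroup.mk_mul, QuotientGroup.mk_mul, QuotientGroup.mk_mul, QuotientGroup.mk_inv,
      QuotientGroup.mk_inv, h1]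
    group
  · rw [← QuotientGroup.eq_one_iff]
    have h1 : ((φ c : G) : G ⧸ A) = (c : G ⧸ A) := hc'ψ
    rw [QuotientGroup.mk_mul, QuotientGroup.mk_inv, h1, mul_inv_cancel]

end Pool.Agent.Helper619.Split4
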