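import Pool.Agent.Helper619.Split4.Defs
import Pool.Agent.Helper619.Split4.G_extend

set_option autoImplicit false

namespace Pool.Agent.Helper619.Split4

theorem zornN {G : Type*} [Group G] (hp : IsPGroup 2 G) (hnil : Group.IsNilpotent G)
    (φ : MulAut G) (h4 : ∀ x : G, φ (φ (φ (φ x))) = x)
    (N : Subgroup G) (hN : N.Normal) (hNφ : ∀ a ∈ N, φ a ∈ N)
    (hcent : ∀ A : Subgroup G, A ≤ N → A.Normal → (∀ a ∈ A, ∀ b ∈ A, a * b = b * a) →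
      (∀ a ∈ A, φ a ∈ A) → ∀ g ∈ N, ∀ a ∈ A, g * a = a * g) :
    ∀ a ∈ N, ∀ b ∈ N, a * b = b * a := by
  let P : Set (Subgroup G) := {A | A ≤ N ∧ A.Normal ∧ (∀ a ∈ A, ∀ b ∈ A, a * b = b * a) ∧
    ∀ a ∈ A, φ a ∈ A}
  have hbot : (⊥ : Subgroup G) ∈ P := by
    refine ⟨bot_le, inferInstance, ?_, ?_⟩
    · intro a ha b hb
      rw [Subgroup.mem_bot] at ha hb
      rw [ha, hb]
    · intro a ha
      rw [Subgroup.mem_bot] at ha ⊢
      rw [ha, map_one]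
  obtain ⟨m, -, hm⟩ := zorn_le_nonempty₀ P (by
    intro c hcP hc y hy
    have hmem : ∀ x, x ∈ sSup c ↔ ∃ s ∈ c, x ∈ s := fun x =>
      Subgroup.mem_sSup_of_directedOn ⟨y, hy⟩ hc.directedOn
    refine ⟨sSup c, ⟨sSup_le fun s hs => (hcP hs).1, ⟨?_⟩, ?_, ?_⟩, fun z hz => le_sSup hz⟩
    · intro n hn g
      obtain ⟨s, hs, hns⟩ := (hmem n).1 hn
      exact (hmem _).2 ⟨s, hs, (hcP hs).2.1.conj_mem n hns g⟩
    · intro a ha b hb
      obtain ⟨s, hs, has⟩ := (hmem a).1 ha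
      obtain ⟨t, ht, hbt⟩ := (hmem b).1 hb
      obtain ⟨u, hu, hsu, htu⟩ := hc.directedOn s hs t ht
      exact (hcP hu).2.2.1 a (hsu has) b (htu hbt)
    · intro a ha
      obtain ⟨s, hs, has⟩ := (hmem a).1 ha
      exact (hmem _).2 ⟨s, hs, (hcP hs).2.2.2 a has⟩) ⊥ hbot
  obtain ⟨⟨hmN, hmn, hmab, hmφ⟩, hmax⟩ := hm
  by_cases hNe : m = N
  · rw [← hNe]; exact hmab
  exfalso
  obtain ⟨c, hcN, hcm, hcg, hcφ⟩ := extend hp hnil φ h4 N m hN hNφ hmn hmφ (lt_of_le_of_ne hmN hNe)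
  have hcc : ∀ a ∈ m, ∀ n : ℤ, c ^ n * a = a * c ^ n := by
    intro a ha n
    have h1 : Commute c a := hcent m hmN hmn hmab hmφ c hcN a ha
    exact (h1.zpow_left n).eq
  have hmul : ∀ a ∈ m, ∀ b ∈ m, ∀ n k : ℤ, (a * c ^ n) * (b * c ^ k) = (a * b) * c ^ (n + k) := by
    intro a ha b hb n k
    rw [mul_assoc, ← mul_assoc (c ^ n), hcc b hb n, mul_assoc b, ← zpow_add, mul_assoc]
  have hpow : ∀ d ∈ m, ∀ n : ℤ, (d * c) ^ n = d ^ n * c ^ n := by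
    intro d hd n
    have h1 : Commute c d := hcent m hmN hmn hmab hmφ c hcN d hd
    exact h1.symm.mul_zpow n
  let B : Subgroup G :=
    { carrier := {x | ∃ a ∈ m, ∃ n : ℤ, x = a * c ^ n}
      one_mem' := ⟨1, one_mem m, 0, by simp⟩
      mul_mem' := by
        rintro _ _ ⟨a, ha, n, rfl⟩ ⟨b, hb, k, rfl⟩
        exact ⟨a * b, mul_mem ha hb, n + k, hmul a ha b hb n k⟩
      inv_mem' := by
        rintro _ ⟨a, ha, n, rfl⟩
        refine ⟨a⁻¹, inv_mem ha, -n, ?_⟩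
        rw [mul_inv_rev, ← zpow_neg, hcc _ (inv_mem ha)] }
  have hBdef : ∀ x, x ∈ B ↔ ∃ a ∈ m, ∃ n : ℤ, x = a * c ^ n := fun x => Iff.rfl
  have hBP : B ∈ P := by
    refine ⟨?_, ⟨?_⟩, ?_, ?_⟩
    · intro x hx
      obtain ⟨a, ha, n, rfl⟩ := (hBdef x).1 hx
      exact mul_mem (hmN ha) (zpow_mem hcN n)
    · intro x hx g
      obtain ⟨a, ha, n, rfl⟩ := (hBdef x).1 hx
      refine (hBdef _).2 ⟨g * a * g⁻¹ * (g * c * g⁻¹ * c⁻¹) ^ n,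
        mul_mem (hmn.conj_mem a ha g) (zpow_mem (hcg g) n), n, ?_⟩
      rw [mul_assoc (g * a * g⁻¹), ← hpow _ (hcg g), inv_mul_cancel_right, conj_zpow]
      group
    · intro x hx y hy
      obtain ⟨a, ha, n, rfl⟩ := (hBdef x).1 hx
      obtain ⟨b, hb, k, rfl⟩ := (hBdef y).1 hy
      rw [hmul a ha b hb, hmul b hb a ha, hmab a ha b hb, add_comm]
    · intro x hx
      obtain ⟨a, ha, n, rfl⟩ := (hBdef x).1 hx
      refine (hBdef _).2 ⟨φ a * (φ c * c⁻¹) ^ n, mul_mem (hmφ a ha) (zpow_mem hcφ n), n, ?_⟩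
      rw [mul_assoc (φ a), ← hpow _ hcφ, inv_mul_cancel_right, map_mul, map_zpow]
  have hmB : m ≤ B := fun a ha => (hBdef a).2 ⟨a, ha, 0, by simp⟩
  exact hcm (hmax hBP hmB ((hBdef c).2 ⟨1, one_mem m, 1, by simp⟩))

end Pool.Agent.Helper619.Split4
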