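import Pool.Agent.Helper619.Split4.Defs
import Pool.Agent.Helper619.Split4.G_app_group
import Pool.Agent.Helper619.Split4.G_zornN

set_option autoImplicit false

namespace Pool.Agent.Helper619.Split4

theorem final : ∃ f : ℕ → ℕ, ∀ (G : Type) [Group G], IsPGroup 2 G → Group.IsNilpotent G →
    ∀ d : ℕ, (∃ s : Finset G, s.card ≤ d ∧ Subgroup.closure (s : Set G) = ⊤) →
    ∀ φ : MulAut G, orderOf φ = 4 →
    (∀ x : G, x * φ x * φ (φ x) * φ (φ (φ x)) = 1) → derivedSeries G (f d) = ⊥ := by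
  refine ⟨fun d => 2 * 14 ^ ((d + 1) + (d + 1) ^ 3) + 1 + 1, ?_⟩
  rintro G _ hp hnil d ⟨s, hs, hgen⟩ φ hord hsplit
  set k := 2 * 14 ^ ((d + 1) + (d + 1) ^ 3) with hkdef
  have hk : 2 * 14 ^ ((s.card + 1) + (s.card + 1) ^ 3) ≤ 2 ^ k := by
    have h1 : (s.card + 1) + (s.card + 1) ^ 3 ≤ (d + 1) + (d + 1) ^ 3 :=
      add_le_add (by omega) (Nat.pow_le_pow_left (by omega) 3)
    have h2 : 2 * 14 ^ ((s.card + 1) + (s.card + 1) ^ 3) ≤ k :=
      Nat.mul_le_mul_left 2 (Nat.pow_le_pow_right (by norm_num) h1)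
    exact h2.trans (Nat.lt_two_pow_self).le
  have h4 : ∀ x : G, φ (φ (φ (φ x))) = x := by
    intro x
    have h1 : φ ^ 4 = 1 := by
      rw [← hord]
      exact pow_orderOf_eq_one φ
    have h2 : (φ ^ 4) x = φ (φ (φ (φ x))) := by
      simp only [pow_succ, pow_zero, one_mul, MulAut.mul_apply]
    rw [← h2, h1]
    rfl
  have hN : (derivedSeries G (k + 1)).Normal := derivedSeries_normal G (k + 1)
  have hNφ : ∀ a ∈ derivedSeries G (k + 1), φ a ∈ derivedSeries G (k + 1) := by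
    intro a ha
    have h1 := map_derivedSeries_le_derivedSeries (φ : G ≃* G).toMonoidHom (k + 1)
    exact h1 (Subgroup.mem_map_of_mem (φ : G ≃* G).toMonoidHom ha)
  have hab := zornN hp hnil φ h4 (derivedSeries G (k + 1)) hN hNφ
    (fun A _ hA hcomm hφ g hg a ha => app_group hp φ hsplit s hgen k hk A hA hcomm hφ g hg a ha)
  show derivedSeries G (k + 1 + 1) = ⊥
  rw [derivedSeries_succ, Subgroup.commutator_eq_bot_iff_le_centralizer]
  intro a ha
  rw [Subgroup.mem_centralizer_iff]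
  intro b hb
  exact hab b hb a ha

end Pool.Agent.Helper619.Split4
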